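import Pool.Agent.H95.AS.Main

/-!
# [H95 AS AP] Sieving by missed arithmetic progressions with steps of small height
-/

set_option autoImplicit false

namespace Pool.Agent.H95.AS

open Finset

/-- modulo `m` the set `X` misses a progression of (at least) `κ m` terms whose step is a quotient
`r / s` with `r, s ≤ H` -/
def MissesAP (κ : ℝ) (H m : ℕ) (X : Finset ℕ) : Prop :=
  ∃ (r s : ℕ) (d u : ℤ), 1 ≤ r ∧ r ≤ H ∧ 1 ≤ s ∧ s ≤ H ∧ r.Coprime m ∧ s.Coprime m ∧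
    (s : ℤ) * d ≡ r [ZMOD m] ∧
    ∀ x ∈ X, ∀ i : ℕ, (i : ℝ) < κ * m → ¬ (x : ℤ) ≡ u + i * d [ZMOD m]

private theorem pigeon {α β : Type*} [DecidableEq β] (A : Finset α) (B : Finset β) (f : α → β)
    (hf : ∀ a ∈ A, f a ∈ B) (hB : B.Nonempty) :
    ∃ b ∈ B, A.card ≤ (A.filter (fun a => f a = b)).card * B.card := by
  obtain ⟨b, hb, hmax⟩ := exists_max_image B (fun b => (A.filter (fun a => f a = b)).card) hB
  exact ⟨b, hb, card_le_mul_card_image_of_maps_to hf _ hmax⟩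

theorem missed (κ : ℝ) (hκ : 0 < κ) (K : ℕ) : ∃ C e : ℕ, 1 ≤ C ∧ ∀ Q D H N : ℕ,
    1 ≤ Q → 1 ≤ D → 1 ≤ H → N ≤ Q ^ K → ∀ M X : Finset ℕ, (∀ m ∈ M, Q < m ∧ m ≤ 2 * Q) →
    Q ≤ M.card * D → (∀ m ∈ M, MissesAP κ H m X) → (∀ x ∈ X, 1 ≤ x ∧ x ≤ N) →
    X.card ≤ C * (D * H) ^ e * Q := by
  obtain ⟨C, e, hC, h⟩ := arcs (min κ 1) (lt_min hκ one_pos) (min_le_right _ _) (K + 1)
  refine ⟨C, 2 * e + 1 + K, hC, ?_⟩
  intro Q D H N hQ hD hH hN M X hM hMc hmiss hX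
  have hDH : 1 ≤ D * H := Nat.one_le_iff_ne_zero.2 (by positivity)
  have hXN : X.card ≤ N := by
    have h1 : X ⊆ Icc 1 N := fun x hx => mem_Icc.2 (hX x hx)
    have h2 := card_le_card h1
    simpa using h2
  rcases Nat.lt_or_ge Q 2 with hQ2 | hQ2
  · have hQ1 : Q = 1 := by omega
    subst hQ1
    rw [one_pow] at hN
    have h1 : 1 ≤ C * (D * H) ^ (2 * e + 1 + K) * 1 := Nat.one_le_iff_ne_zero.2 (by positivity)
    omega
  rcases Nat.lt_or_ge Q H with hQH | hQH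
  · calc X.card ≤ Q ^ K := hXN.trans hN
      _ ≤ (D * H) ^ K := Nat.pow_le_pow_left (by nlinarith) K
      _ ≤ (D * H) ^ (2 * e + 1 + K) := Nat.pow_le_pow_right hDH (by omega)
      _ = 1 * (D * H) ^ (2 * e + 1 + K) * 1 := by ring
      _ ≤ C * (D * H) ^ (2 * e + 1 + K) * Q := by gcongr
  -- the main case
  classical
  have hch : ∀ m : ℕ, ∃ p : ℕ × ℕ, m ∈ M → ∃ d u : ℤ, 1 ≤ p.1 ∧ p.1 ≤ H ∧ 1 ≤ p.2 ∧ p.2 ≤ H ∧
      p.1.Coprime m ∧ p.2.Coprime m ∧ (p.2 : ℤ) * d ≡ p.1 [ZMOD m] ∧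
      ∀ x ∈ X, ∀ i : ℕ, (i : ℝ) < κ * m → ¬ (x : ℤ) ≡ u + i * d [ZMOD m] := by
    intro m
    by_cases hm : m ∈ M
    · obtain ⟨r, s, d, u, hr⟩ := hmiss m hm
      exact ⟨(r, s), fun _ => ⟨d, u, hr⟩⟩
    · exact ⟨(1, 1), fun h => absurd h hm⟩
  choose p hp using hch
  obtain ⟨b, hb, hcard⟩ := pigeon M (Icc 1 H ×ˢ Icc 1 H) p (by
    intro m hm
    obtain ⟨d, u, h1, h2, h3, h4, _⟩ := hp m hm
    exact mem_product.2 ⟨mem_Icc.2 ⟨h1, h2⟩, mem_Icc.2 ⟨h3, h4⟩⟩)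
    ⟨(1, 1), mem_product.2 ⟨mem_Icc.2 ⟨le_rfl, hH⟩, mem_Icc.2 ⟨le_rfl, hH⟩⟩⟩
  obtain ⟨r, s⟩ := b
  rw [mem_product, mem_Icc, mem_Icc] at hb
  obtain ⟨⟨hr1, hrH⟩, ⟨hs1, hsH⟩⟩ := hb
  simp only at hr1 hrH hs1 hsH
  rw [card_product, Nat.card_Icc, Nat.add_sub_cancel] at hcard
  set M' : Finset ℕ := M.filter (fun m => p m = (r, s)) with hM'
  obtain ⟨b, hb, hcardX⟩ := pigeon X (range r) (fun x => x % r)
    (fun x _ => mem_range.2 (Nat.mod_lt _ (by omega))) ⟨0, mem_range.2 (by omega)⟩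
  rw [card_range] at hcardX
  set Xb : Finset ℕ := X.filter (fun x => x % r = b) with hXb
  set Z : Finset ℕ := Xb.image (fun x => s * (x / r)) with hZ
  have hZc : Z.card = Xb.card := by
    rw [hZ]
    apply card_image_of_injOn
    intro x hx y hy hxy
    have hx' := (mem_filter.1 (mem_coe.1 hx)).2
    have hy' := (mem_filter.1 (mem_coe.1 hy)).2
    have h1 : x / r = y / r := Nat.eq_of_mul_eq_mul_left (by omega) hxy
    rw [← Nat.div_add_mod x r, ← Nat.div_add_mod y r, hx', hy', h1]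
  have hD' : 1 ≤ D * H ^ 2 := Nat.one_le_iff_ne_zero.2 (by positivity)
  have hQM : Q ≤ M'.card * (D * H ^ 2) := by
    calc Q ≤ M.card * D := hMc
      _ ≤ (M'.card * (H * H)) * D := Nat.mul_le_mul_right _ hcard
      _ = M'.card * (D * H ^ 2) := by ring
  have hmain := h (D * H ^ 2) Q hD' hQ M' Z (fun m hm => hM m (mem_filter.1 hm).1) hQM (by
    intro m hm
    obtain ⟨hmM, hpm⟩ := mem_filter.1 hm
    obtain ⟨d, u, _, _, _, _, hrm, hsm, hd, hx⟩ := hp m hmM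
    rw [hpm] at hrm hsm hd
    simp only at hrm hsm hd
    obtain ⟨r', hr'⟩ : ∃ r' : ℤ, (r : ℤ) * r' ≡ 1 [ZMOD m] := by
      have h1 : IsCoprime (r : ℤ) (m : ℤ) := Nat.isCoprime_iff_coprime.2 hrm
      obtain ⟨a, c, hac⟩ := h1
      refine ⟨a, ?_⟩
      rw [Int.modEq_iff_dvd]
      exact ⟨c, by linarith⟩
    refine ⟨r' * (s * u - s * b), ?_⟩
    intro z hz i hi hcon
    obtain ⟨x, hxb, rfl⟩ := mem_image.1 hz
    obtain ⟨hxX, hxr⟩ := mem_filter.1 hxb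
    have hi' : (i : ℝ) < κ * m := by
      refine lt_of_lt_of_le hi ?_
      gcongr
      exact min_le_left _ _
    refine hx x hxX i hi' ?_
    have h1 : (x : ℤ) = r * ((x / r : ℕ) : ℤ) + b := by
      have h2 := Nat.div_add_mod x r
      rw [hxr] at h2
      exact_mod_cast h2.symm
    have hm0 : (m : ℤ) ∣ (s : ℤ) * (u + i * d - x) := by
      have h2 : (m : ℤ) ∣ r' * (s * u - s * b) + i - ((s * (x / r) : ℕ) : ℤ) :=
        (Int.modEq_iff_dvd.1 hcon)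
      have h3 : (m : ℤ) ∣ 1 - (r : ℤ) * r' := Int.modEq_iff_dvd.1 hr'
      have h4 : (m : ℤ) ∣ (r : ℤ) - (s : ℤ) * d := Int.modEq_iff_dvd.1 hd
      have h5 : (s : ℤ) * (u + i * d - x) =
          r * (r' * (s * u - s * b) + i - ((s * (x / r) : ℕ) : ℤ)) +
          (1 - (r : ℤ) * r') * (s * u - s * b) - ((r : ℤ) - (s : ℤ) * d) * i := by
        rw [Nat.cast_mul]
        rw [h1]
        have h6 : ((r * ((x / r : ℕ) : ℤ) + b : ℤ)) = (x : ℤ) := h1.symm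
        ring
      rw [h5]
      exact dvd_sub (dvd_add (h2.mul_left _) (h3.mul_right _)) (h4.mul_right _)
    have h2 : IsCoprime (m : ℤ) (s : ℤ) := (Nat.isCoprime_iff_coprime.2 hsm).symm
    exact Int.modEq_iff_dvd.2 (h2.dvd_of_dvd_mul_left hm0)) (by
    intro z hz
    obtain ⟨x, hxb, rfl⟩ := mem_image.1 hz
    have hxX := (mem_filter.1 hxb).1
    have hxN := (hX x hxX).2
    calc s * (x / r) ≤ H * N := Nat.mul_le_mul hsH ((Nat.div_le_self _ _).trans hxN)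
      _ ≤ Q * Q ^ K := Nat.mul_le_mul hQH hN
      _ = Q ^ (K + 1) := by rw [pow_succ]; ring
      _ < Q ^ (K + 1 + 1) := Nat.pow_lt_pow_right (by omega) (by omega))
  have hDe : D ^ e ≤ D ^ (2 * e + 1) := Nat.pow_le_pow_right hD (by omega)
  calc X.card ≤ Xb.card * r := hcardX
    _ ≤ (C * (D * H ^ 2) ^ e * Q) * H := by
        rw [← hZc]
        exact Nat.mul_le_mul hmain hrH
    _ = C * (D ^ e * H ^ (2 * e + 1)) * Q := by
        rw [mul_pow, ← pow_mul]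
        ring
    _ ≤ C * (D ^ (2 * e + 1) * H ^ (2 * e + 1)) * Q := by gcongr
    _ = C * (D * H) ^ (2 * e + 1) * Q := by rw [mul_pow]
    _ ≤ C * (D * H) ^ (2 * e + 1 + K) * Q := by
        have h1 : (D * H) ^ (2 * e + 1) ≤ (D * H) ^ (2 * e + 1 + K) :=
          Nat.pow_le_pow_right hDH (by omega)
        gcongr

end Pool.Agent.H95.AS
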