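import Pool.Agent.H95.AS.Defs

/-!
# [H95 AS Bd] Bounds for the iterated differences of `1/m`

Proof. `dl` is linear in `g` and commutes with shifts (induction on `ks`): `dl (fun m => g m - g (m + l)) ks m = dl g ks m - dl g ks (m + l)`,
`dl (fun m => ∑ i ∈ range k, g (m + i)) ks m = ∑ i ∈ range k, dl g ks (m + i)` for `g` restricted to `m ≥ 1` (the identity
`T j m - T j (m + 1) = T (j + 1) m` needs `m ≥ 1`; use `dl` only looks at arguments `≥ m`). So for `m ≥ 1`
`dl (T j) (k :: ks) m = ∑ i ∈ range k, dl (T (j + 1)) ks (m + i)`, and both bounds follow by induction on `ks` (for all `j, m`), from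
`j!/(m+j)^(j+1) ≤ T j m ≤ j!/m^(j+1)`.
-/

set_option autoImplicit false

namespace Pool.Agent.H95.AS

open Finset Pool.Agent.H24.AB

theorem dl_diff (g : ℕ → ℝ) (ks : List ℕ) (l m : ℕ) :
    dl g (l :: ks) m = dl g ks m - dl g ks (m + l) := by
  induction ks generalizing g with
  | nil => rfl
  | cons k ks ih =>
    have h1 := ih (fun m => g m - g (m + k))
    change dl (fun m => (g m - g (m + l)) - (g (m + k) - g (m + k + l))) ks m =
      dl (fun m => g m - g (m + k)) ks m - dl (fun m => g m - g (m + k)) ks (m + l)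
    rw [← h1]
    change _ = dl (fun m => (g m - g (m + k)) - (g (m + l) - g (m + l + k))) ks m
    congr 1
    funext m
    rw [show m + k + l = m + l + k by omega]
    ring

theorem dl_mul (a : ℝ) (g : ℕ → ℝ) (ks : List ℕ) (m : ℕ) :
    dl (fun m => a * g m) ks m = a * dl g ks m := by
  induction ks generalizing g with
  | nil => rfl
  | cons k ks ih =>
    have h1 := ih (fun m => g m - g (m + k))
    change dl (fun m => a * g m - a * g (m + k)) ks m = a * dl (fun m => g m - g (m + k)) ks m
    rw [← h1]
    congr 1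
    funext m
    ring

private theorem dl_congr {g g' : ℕ → ℝ} (ks : List ℕ) {m : ℕ} (h : ∀ i, m ≤ i → g i = g' i) :
    dl g ks m = dl g' ks m := by
  induction ks generalizing g g' with
  | nil => exact h m le_rfl
  | cons k ks ih =>
    change dl (fun m => g m - g (m + k)) ks m = dl (fun m => g' m - g' (m + k)) ks m
    apply ih
    intro i hi
    rw [h i hi, h (i + k) (by omega)]

private theorem prod_pos' {m : ℕ} (hm : 1 ≤ m) (j : ℕ) :
    0 < ∏ i ∈ range j, ((m : ℝ) + i) := by
  apply Finset.prod_pos
  intro i _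
  have : (1 : ℝ) ≤ m := by exact_mod_cast hm
  positivity

private theorem T_step {j m : ℕ} (hm : 1 ≤ m) : T j m - T j (m + 1) = T (j + 1) m := by
  unfold T
  have hm0 : (0 : ℝ) < m := by exact_mod_cast hm
  have e1 : ∏ i ∈ range (j + 1), (((m + 1 : ℕ) : ℝ) + i) =
      ∏ i ∈ range (j + 1), ((m : ℝ) + ((i + 1 : ℕ) : ℝ)) := by
    refine Finset.prod_congr rfl fun i _ => ?_
    push_cast; ring
  have e2 : ∏ i ∈ range (j + 1 + 1), ((m : ℝ) + i) =
      (∏ i ∈ range (j + 1), ((m : ℝ) + ((i + 1 : ℕ) : ℝ))) * m := by
    rw [Finset.prod_range_succ']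
    norm_num
  have e3 : ∏ i ∈ range (j + 1 + 1), ((m : ℝ) + i) =
      (∏ i ∈ range (j + 1), ((m : ℝ) + i)) * (m + (j + 1)) := by
    rw [Finset.prod_range_succ]
    push_cast; ring
  rw [e1]
  set P := ∏ i ∈ range (j + 1), ((m : ℝ) + i) with hP
  set Q := ∏ i ∈ range (j + 1), ((m : ℝ) + ((i + 1 : ℕ) : ℝ)) with hQ
  have hP0 : 0 < P := prod_pos' hm _
  have hPQ : Q * m = P * (m + (j + 1)) := by rw [← e2, ← e3]
  have hQ0 : 0 < Q := by
    by_contra hc
    push Not at hc
    have h1 : Q * m ≤ 0 := mul_nonpos_of_nonpos_of_nonneg hc hm0.le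
    have h2 : 0 < P * (m + (j + 1)) := by positivity
    linarith
  rw [e2, Nat.factorial_succ, div_sub_div _ _ hP0.ne' hQ0.ne',
    div_eq_div_iff (by positivity) (by positivity)]
  push_cast
  have : (j.factorial : ℝ) * Q - P * j.factorial = j.factorial * (Q - P) := by ring
  rw [this]
  have h3 : (Q - P) * m = P * (j + 1) := by linarith
  calc (j.factorial : ℝ) * (Q - P) * (Q * m) = j.factorial * ((Q - P) * m) * Q := by ring
    _ = j.factorial * (P * (j + 1)) * Q := by rw [h3]
    _ = ((j : ℝ) + 1) * j.factorial * (P * Q) := by ring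

private theorem dl_cons (j k : ℕ) (ks : List ℕ) (m : ℕ) (hm : 1 ≤ m) :
    dl (T j) (k :: ks) m = ∑ i ∈ range k, dl (T (j + 1)) ks (m + i) := by
  rw [dl_diff]
  induction k with
  | zero => simp
  | succ k ih =>
    rw [Finset.sum_range_succ, ← ih]
    have h1 : dl (T (j + 1)) ks (m + k) = dl (T j) (1 :: ks) (m + k) := by
      change _ = dl (fun m => T j m - T j (m + 1)) ks (m + k)
      apply dl_congr
      intro i hi
      exact (T_step (by omega)).symm
    rw [h1, dl_diff, ← Nat.add_assoc]
    ring

theorem dl_upper (ks : List ℕ) (j m : ℕ) (hm : 1 ≤ m) (hk : ∀ k ∈ ks, 1 ≤ k) :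
    dl (T j) ks m ≤ (ks.prod : ℝ) * ((j + ks.length).factorial : ℝ) / (m : ℝ) ^ (j + ks.length + 1) := by
  have hm1 : (1 : ℝ) ≤ m := by exact_mod_cast hm
  induction ks generalizing j m with
  | nil =>
    change T j m ≤ _
    unfold T
    rw [List.prod_nil, Nat.cast_one, one_mul, List.length_nil, Nat.add_zero]
    apply div_le_div_of_nonneg_left (by positivity) (by positivity)
    calc (m : ℝ) ^ (j + 1) = ∏ _i ∈ range (j + 1), (m : ℝ) := by
          rw [Finset.prod_const, Finset.card_range]
      _ ≤ ∏ i ∈ range (j + 1), ((m : ℝ) + i) := by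
          apply Finset.prod_le_prod
          · intro i _; positivity
          · intro i _
            have : (0 : ℝ) ≤ i := Nat.cast_nonneg i
            linarith
  | cons k ks ih =>
    rw [dl_cons j k ks m hm]
    have e : j + (k :: ks).length = j + 1 + ks.length := by
      rw [List.length_cons]; omega
    rw [e, List.prod_cons]
    set F : ℝ := ((j + 1 + ks.length).factorial : ℝ) with hF
    have hF0 : 0 ≤ F := by positivity
    calc ∑ i ∈ range k, dl (T (j + 1)) ks (m + i)
        ≤ ∑ _i ∈ range k, (ks.prod : ℝ) * F / (m : ℝ) ^ (j + 1 + ks.length + 1) := by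
          apply Finset.sum_le_sum
          intro i _
          have h1 := ih (j + 1) (m + i) (by omega) (fun q hq => hk q (List.mem_cons_of_mem _ hq))
            (by exact_mod_cast (by omega : 1 ≤ m + i))
          refine h1.trans ?_
          apply div_le_div_of_nonneg_left (by positivity) (by positivity)
          apply pow_le_pow_left₀ (by positivity)
          push_cast
          have : (0 : ℝ) ≤ i := Nat.cast_nonneg i
          linarith
      _ = ((k * ks.prod : ℕ) : ℝ) * F / (m : ℝ) ^ (j + 1 + ks.length + 1) := by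
          rw [Finset.sum_const, Finset.card_range, nsmul_eq_mul]
          push_cast; ring

theorem dl_lower (ks : List ℕ) (j m : ℕ) (hm : 1 ≤ m) (hk : ∀ k ∈ ks, 1 ≤ k) :
    (ks.prod : ℝ) * ((j + ks.length).factorial : ℝ) / ((m : ℝ) + ks.sum + j) ^ (j + ks.length + 1) ≤ dl (T j) ks m := by
  have hm1 : (1 : ℝ) ≤ m := by exact_mod_cast hm
  induction ks generalizing j m with
  | nil =>
    change _ ≤ T j m
    unfold T
    rw [List.prod_nil, Nat.cast_one, one_mul, List.length_nil, Nat.add_zero, List.sum_nil,
      Nat.cast_zero, add_zero]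
    apply div_le_div_of_nonneg_left (by positivity) (prod_pos' hm _)
    calc ∏ i ∈ range (j + 1), ((m : ℝ) + i) ≤ ∏ _i ∈ range (j + 1), ((m : ℝ) + j) := by
          apply Finset.prod_le_prod
          · intro i _; positivity
          · intro i hi
            have h1 : i ≤ j := by have := Finset.mem_range.1 hi; omega
            have h2 : (i : ℝ) ≤ j := by exact_mod_cast h1
            linarith
      _ = ((m : ℝ) + j) ^ (j + 1) := by
          rw [Finset.prod_const, Finset.card_range]
  | cons k ks ih =>
    rw [dl_cons j k ks m hm]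
    have e : j + (k :: ks).length = j + 1 + ks.length := by
      rw [List.length_cons]; omega
    rw [e, List.prod_cons, List.sum_cons]
    set F : ℝ := ((j + 1 + ks.length).factorial : ℝ) with hF
    have hF0 : 0 ≤ F := by positivity
    calc ((k * ks.prod : ℕ) : ℝ) * F /
          ((m : ℝ) + ((k + ks.sum : ℕ) : ℝ) + j) ^ (j + 1 + ks.length + 1)
        = ∑ _i ∈ range k, (ks.prod : ℝ) * F /
          ((m : ℝ) + ((k + ks.sum : ℕ) : ℝ) + j) ^ (j + 1 + ks.length + 1) := by
          rw [Finset.sum_const, Finset.card_range, nsmul_eq_mul]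
          push_cast; ring
      _ ≤ ∑ i ∈ range k, dl (T (j + 1)) ks (m + i) := by
          apply Finset.sum_le_sum
          intro i hi
          have h1 := ih (j + 1) (m + i) (by omega) (fun q hq => hk q (List.mem_cons_of_mem _ hq))
            (by exact_mod_cast (by omega : 1 ≤ m + i))
          refine le_trans ?_ h1
          apply div_le_div_of_nonneg_left (by positivity) (by positivity)
          apply pow_le_pow_left₀ (by positivity)
          push_cast
          have h2 : i + 1 ≤ k := by have := Finset.mem_range.1 hi; omega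
          have h3 : (i : ℝ) + 1 ≤ k := by exact_mod_cast h2
          linarith

end Pool.Agent.H95.AS
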