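import Pool.Agent.H95.AS.Defs

/-!
# [H95 AS Bias] A missed arc gives a large Fourier coefficient at a low frequency

Proof (with the Fejer kernel). Let `n ≥ 2 / κ²`, `c = 1 / (2 n)` and, for `x ∈ X`, `φ x = x/m - u/m - κ/2`,
`G x = ∑_{j < n} ee (j φ x)`. (1) If `X` misses the arc, then `x/m - u/m` is, modulo 1, a number
`t = ((x - u) mod m) / m` of `[κ, 1)`, so `‖ee (φ x) - 1‖ ≥ 2 κ` and `‖G x‖ ≤ 1/κ`.
(2) `∑_{x ∈ X} ‖G x‖^2 = ∑_{i,j < n} ee(-(i-j)(u/m + κ/2)) S X ((i-j)/m)`; the terms `i = j` give `n |X|`, the other terms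
have `‖S X ((i - j)/m)‖ = ‖S X (|i - j|/m)‖`. If all `‖S X (a/m)‖ < c |X|`, `1 ≤ a ≤ n`, then
`n |X| < |X|/κ² + n² c |X|`, a contradiction. (`X` empty: `a = 1`.)
-/

set_option autoImplicit false

namespace Pool.Agent.H95.AS

open Finset Pool.Agent.H24.AB

private theorem bi_neg (X : Finset ℕ) (θ : ℝ) : S X (-θ) = (starRingEnd ℂ) (S X θ) := by
  unfold S
  rw [map_sum]
  refine Finset.sum_congr rfl fun x _ => ?_
  rw [ee_conj]
  congr 1
  ring

private theorem bi_norm (X : Finset ℕ) (θ : ℝ) : ‖S X (-θ)‖ = ‖S X θ‖ := by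
  rw [bi_neg, Complex.norm_conj]

private theorem bi_zero (X : Finset ℕ) : S X 0 = (X.card : ℂ) := by
  unfold S
  simp [ee_zero]

private theorem bi_pow (n : ℕ) (θ : ℝ) : ee (n * θ) = ee θ ^ n := by
  unfold ee
  rw [← Complex.exp_nat_mul]
  congr 1
  push_cast
  ring

/-- away from the integers -/
private theorem bi_sub {κ s : ℝ} (hκ : 0 < κ) (h1 : κ / 2 ≤ s) (h2 : s ≤ 1 - κ / 2) :
    2 * κ ≤ ‖ee s - 1‖ := by
  have hpi := Real.pi_pos
  have e : ee s = Complex.exp (Complex.I * ((2 * Real.pi * s : ℝ) : ℂ)) := by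
    unfold ee
    congr 1
    push_cast
    ring
  rw [e, Complex.norm_exp_I_mul_ofReal_sub_one]
  have e2 : 2 * Real.pi * s / 2 = Real.pi * s := by ring
  rw [e2, Real.norm_eq_abs]
  refine le_trans ?_ (le_abs_self _)
  have key : ∀ x : ℝ, κ / 2 ≤ x → x ≤ 1 / 2 → κ ≤ Real.sin (Real.pi * x) := by
    intro x hx1 hx2
    have := Real.mul_le_sin (x := Real.pi * x) (mul_nonneg hpi.le (by linarith)) (by nlinarith)
    have e3 : 2 / Real.pi * (Real.pi * x) = 2 * x := by field_simp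
    rw [e3] at this
    linarith
  rcases le_total s (1 / 2) with h | h
  · have := key s h1 h
    linarith
  · have := key (1 - s) (by linarith) (by linarith)
    have e3 : Real.sin (Real.pi * (1 - s)) = Real.sin (Real.pi * s) := by
      rw [mul_sub, mul_one, Real.sin_pi_sub]
    rw [e3] at this
    linarith

/-- the geometric sum is small -/
private theorem bi_geom {κ s : ℝ} (hκ : 0 < κ) (h : 2 * κ ≤ ‖ee s - 1‖) (n : ℕ) :
    ‖∑ j ∈ range n, ee (j * s)‖ ≤ 1 / κ := by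
  have h1 : (∑ j ∈ range n, ee (j * s)) * (ee s - 1) = ee s ^ n - 1 := by
    rw [← geom_sum_mul]
    congr 1
    exact Finset.sum_congr rfl fun j _ => bi_pow j s
  have h2 : ‖ee s ^ n - 1‖ ≤ 2 := by
    refine (norm_sub_le _ _).trans ?_
    rw [norm_pow, ee_norm, one_pow, norm_one]
    norm_num
  rw [← h1, norm_mul] at h2
  rw [le_div_iff₀ hκ]
  nlinarith [norm_nonneg (∑ j ∈ range n, ee (j * s))]

/-- the residue of a member of a set which misses the arc -/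
private theorem bi_miss {κ : ℝ} {m : ℕ} (hm : 1 ≤ m) {u : ℤ} {x : ℕ}
    (h : ∀ i : ℕ, (i : ℝ) < κ * m → ¬ (x : ℤ) ≡ u + i [ZMOD m]) :
    ∃ t : ℝ, κ ≤ t ∧ t ≤ 1 ∧ ee ((x : ℝ) / m - u / m - κ / 2) = ee (t - κ / 2) := by
  have hm0 : (0 : ℤ) < m := by exact_mod_cast hm
  have hmR : (0 : ℝ) < m := by exact_mod_cast hm
  obtain ⟨i, hi⟩ : ∃ i : ℕ, ((x : ℤ) - u) % m = i :=
    ⟨(((x : ℤ) - u) % m).toNat, (Int.toNat_of_nonneg (Int.emod_nonneg _ hm0.ne')).symm⟩
  have hdiv : (x : ℤ) - u = m * (((x : ℤ) - u) / m) + i := by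
    rw [← hi]; exact (Int.mul_ediv_add_emod _ _).symm
  have hmod : (x : ℤ) ≡ u + i [ZMOD m] := by
    have : (x : ℤ) = u + i + m * (((x : ℤ) - u) / m) := by linarith
    rw [this]
    exact Int.modEq_add_fac_self
  have h1 : κ * m ≤ i := by
    by_contra hlt
    exact h i (not_le.mp hlt) hmod
  have h2 : (i : ℝ) ≤ m := by
    have : (i : ℤ) < m := by rw [← hi]; exact Int.emod_lt_of_pos _ hm0
    exact_mod_cast this.le
  refine ⟨(i : ℝ) / m, (le_div_iff₀ hmR).mpr h1, (div_le_one hmR).mpr h2, ?_⟩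
  have e : (x : ℝ) / m - u / m - κ / 2 = ((i : ℝ) / m - κ / 2) + (((x : ℤ) - u) / m : ℤ) := by
    have hd : (x : ℝ) - u = m * ((((x : ℤ) - u) / m : ℤ) : ℝ) + i := by exact_mod_cast hdiv
    rw [← sub_div, hd]
    field_simp
    ring
  rw [e, ee_add, ee_int, mul_one]

theorem bias (κ : ℝ) (hκ : 0 < κ) (hκ1 : κ ≤ 1) :
    ∃ n : ℕ, ∃ c : ℝ, 1 ≤ n ∧ 0 < c ∧ ∀ m : ℕ, 1 ≤ m → ∀ X : Finset ℕ, Miss κ m X →
      ∃ a : ℕ, 1 ≤ a ∧ a ≤ n ∧ c * X.card ≤ ‖S X ((a : ℝ) / m)‖ := by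
  obtain ⟨n, hn⟩ : ∃ n : ℕ, 2 / κ ^ 2 ≤ n := ⟨⌈2 / κ ^ 2⌉₊, Nat.le_ceil _⟩
  have hn2 : 2 ≤ κ ^ 2 * n := by
    rw [div_le_iff₀ (by positivity)] at hn
    linarith
  have hn0 : (0 : ℝ) < n := by
    have : (0 : ℝ) < 2 / κ ^ 2 := by positivity
    linarith
  have hn1 : 1 ≤ n := by
    have : 0 < n := by exact_mod_cast hn0
    exact this
  refine ⟨n, 1 / (2 * n), hn1, by positivity, ?_⟩
  intro m hm X hX
  by_contra hcon
  push Not at hcon
  have hpos : 0 < X.card := by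
    by_contra h0
    have h0 : X.card = 0 := by omega
    have := hcon 1 le_rfl hn1
    rw [h0] at this
    simp only [Nat.cast_zero, mul_zero] at this
    exact absurd (norm_nonneg _) (not_le.mpr this)
  have hposR : (0 : ℝ) < X.card := by exact_mod_cast hpos
  obtain ⟨u, hu⟩ := hX
  set β : ℝ := u / m + κ / 2 with hβ
  set G : ℕ → ℂ := fun x => ∑ j ∈ range n, ee (j * ((x : ℝ) / m - β)) with hG
  have hGle : ∀ x ∈ X, ‖G x‖ ≤ 1 / κ := by
    intro x hx
    obtain ⟨t, ht1, ht2, ht⟩ := bi_miss hm (hu x hx)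
    have e : (x : ℝ) / m - β = (x : ℝ) / m - u / m - κ / 2 := by rw [hβ]; ring
    refine bi_geom hκ ?_ n
    rw [e, ht]
    exact bi_sub hκ (by linarith) (by linarith)
  have hnorm : ∀ x, ((‖G x‖ ^ 2 : ℝ) : ℂ) =
      ∑ i ∈ range n, ∑ j ∈ range n, ee (((i : ℝ) - j) * ((x : ℝ) / m - β)) := by
    intro x
    rw [Complex.ofReal_pow, ← Complex.conj_mul']
    simp only [hG]
    rw [map_sum, Finset.sum_mul_sum, Finset.sum_comm]
    refine Finset.sum_congr rfl fun i _ => Finset.sum_congr rfl fun j _ => ?_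
    rw [ee_conj, ← ee_add]
    congr 1
    ring
  have hsum : ((∑ x ∈ X, ‖G x‖ ^ 2 : ℝ) : ℂ) =
      ∑ i ∈ range n, ∑ j ∈ range n, ee (-(((i : ℝ) - j) * β)) * S X (((i : ℝ) - j) / m) := by
    rw [Complex.ofReal_sum, Finset.sum_congr rfl (fun x _ => hnorm x), Finset.sum_comm]
    refine Finset.sum_congr rfl fun i _ => ?_
    rw [Finset.sum_comm]
    refine Finset.sum_congr rfl fun j _ => ?_
    unfold S
    rw [Finset.mul_sum]
    refine Finset.sum_congr rfl fun x _ => ?_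
    rw [← ee_add]
    congr 1
    ring
  have hoff : ∀ i ∈ range n, ∀ j ∈ (range n).erase i,
      ‖ee (-(((i : ℝ) - j) * β)) * S X (((i : ℝ) - j) / m)‖ ≤ 1 / (2 * n) * X.card := by
    intro i hi j hj
    rw [Finset.mem_erase, Finset.mem_range] at hj
    rw [Finset.mem_range] at hi
    rw [norm_mul, ee_norm, one_mul]
    rcases lt_or_gt_of_ne hj.1 with h | h
    · have e : ((i : ℝ) - j) = ((i - j : ℕ) : ℝ) := by rw [Nat.cast_sub h.le]
      rw [e]
      exact (hcon (i - j) (by omega) (by omega)).le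
    · have e : ((i : ℝ) - j) / m = -(((j - i : ℕ) : ℝ) / m) := by rw [Nat.cast_sub h.le]; ring
      rw [e, bi_norm]
      exact (hcon (j - i) (by omega) (by omega)).le
  have hsplit : ((∑ x ∈ X, ‖G x‖ ^ 2 : ℝ) : ℂ) = (n : ℂ) * X.card +
      ∑ i ∈ range n, ∑ j ∈ (range n).erase i,
        ee (-(((i : ℝ) - j) * β)) * S X (((i : ℝ) - j) / m) := by
    rw [hsum]
    have : (n : ℂ) * X.card = ∑ i ∈ range n, (X.card : ℂ) := by
      rw [Finset.sum_const, Finset.card_range, nsmul_eq_mul]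
    rw [this, ← Finset.sum_add_distrib]
    refine Finset.sum_congr rfl fun i hi => ?_
    rw [← Finset.add_sum_erase _ _ hi]
    congr 1
    rw [sub_self, zero_mul, neg_zero, zero_div, ee_zero, one_mul, bi_zero]
  have hA : ∑ x ∈ X, ‖G x‖ ^ 2 ≤ X.card * (1 / κ ^ 2) := by
    calc ∑ x ∈ X, ‖G x‖ ^ 2 ≤ ∑ x ∈ X, (1 / κ ^ 2) := by
          refine Finset.sum_le_sum fun x hx => ?_
          have := pow_le_pow_left₀ (norm_nonneg _) (hGle x hx) 2
          rw [div_pow, one_pow] at this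
          exact this
      _ = X.card * (1 / κ ^ 2) := by rw [Finset.sum_const, nsmul_eq_mul]
  have hB : ‖∑ i ∈ range n, ∑ j ∈ (range n).erase i,
        ee (-(((i : ℝ) - j) * β)) * S X (((i : ℝ) - j) / m)‖ ≤
      n * ((n - 1) * (1 / (2 * n) * X.card)) := by
    refine (norm_sum_le _ _).trans ?_
    calc ∑ i ∈ range n, ‖∑ j ∈ (range n).erase i,
        ee (-(((i : ℝ) - j) * β)) * S X (((i : ℝ) - j) / m)‖
        ≤ ∑ i ∈ range n, ((n - 1) * (1 / (2 * n) * X.card) : ℝ) := by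
          refine Finset.sum_le_sum fun i hi => ?_
          refine (norm_sum_le _ _).trans ((Finset.sum_le_sum (hoff i hi)).trans ?_)
          rw [Finset.sum_const, nsmul_eq_mul, Finset.card_erase_of_mem hi, Finset.card_range,
            Nat.cast_sub hn1, Nat.cast_one]
      _ = n * ((n - 1) * (1 / (2 * n) * X.card)) := by
          rw [Finset.sum_const, nsmul_eq_mul, Finset.card_range]
  have hC : (n : ℝ) * X.card ≤ ∑ x ∈ X, ‖G x‖ ^ 2 + n * ((n - 1) * (1 / (2 * n) * X.card)) := by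
    have e1 : (n : ℂ) * X.card = ((∑ x ∈ X, ‖G x‖ ^ 2 : ℝ) : ℂ) -
        ∑ i ∈ range n, ∑ j ∈ (range n).erase i,
          ee (-(((i : ℝ) - j) * β)) * S X (((i : ℝ) - j) / m) := by
      rw [hsplit]; ring
    have e2 : ‖(n : ℂ) * X.card‖ = (n : ℝ) * X.card := by
      rw [norm_mul, Complex.norm_natCast, Complex.norm_natCast]
    rw [← e2, e1]
    refine (norm_sub_le _ _).trans (add_le_add ?_ hB)
    rw [Complex.norm_real, Real.norm_eq_abs, abs_of_nonneg]
    exact Finset.sum_nonneg fun x _ => by positivity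
  have e3 : (n : ℝ) * ((n - 1) * (1 / (2 * n) * X.card)) = (n - 1) / 2 * X.card := by
    field_simp
  rw [e3] at hC
  have h4 : (n : ℝ) * X.card ≤ X.card * (1 / κ ^ 2) + (n - 1) / 2 * X.card := by linarith
  have h5 : (n : ℝ) ≤ 1 / κ ^ 2 + (n - 1) / 2 := by
    by_contra hlt
    push Not at hlt
    have := mul_lt_mul_of_pos_right hlt hposR
    linarith
  have h6 : 2 / κ ^ 2 = 2 * (1 / κ ^ 2) := by ring
  rw [h6] at hn
  linarith

end Pool.Agent.H95.AS
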