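import Pool.Agent.H95.AS.Bd

/-!
# [H95 AS Conc] Concentration in a shorter interval

Proof. `θ m = a * dl (T 0) ks m`, `J = ks.length`. By `dl_upper` `0 ≤ θ m ≤ a P J!/m^(J+1) ≤ E^(J+1) J!/Q^(J+1)`, `P = ks.prod ≤ E^J`. Let
`G0 = ⌈8 π / c⌉ + 4` and `G = G0 * J! * E^(J+1)`, `R = Q^(J+1) / G` (natural division), `1 ≤ R` since `C E^(J+1) ≤ Q` (so `G ≤ Q ≤ Q^(J+1)`), and
`Q^(J+1) ≤ 2 G R`. Then `2 π R θ m ≤ c/2` and `R θ m ≤ 1/4`. For `x ∈ X` put `n x = (x - y)/R + 1`, `1 ≤ n x ≤ B`, `B = Q^(J+2)/R + 1 ≤ 3 G Q`. Since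
`x = y + (n x - 1) R + r`, `r < R`: `|ee(x θ) - ee(yθ - Rθ) ee(n x R θ)| = |ee(r θ) - 1| ≤ 2 π r θ ≤ c/2` (use `‖exp(i t) - 1‖ ≤ |t|`), so with `τ m = R θ m`:
`(c/2)|X| ≤ ‖∑_{x ∈ X} ee(n x τ m)‖`. Spacing: for `m < m' = m + l` in `M`: `θ m - θ m' = a dl (T 0) (l :: ks) m ≥ 1/(4Q)^(J+2)` (`dl_diff`, `dl_lower`;
`m + l + ks.sum ≤ 4 Q`), so `δ = R/(4Q)^(J+2)` works in `large_sieve` (for integers `k ≠ 0` because all `τ ∈ [0, 1/4]`).
Unimodular `ω m` with `ω m * ∑_x ee(n x τ m) = ‖..‖`: `(c/2)|X||M| ≤ ∑_x |f (n x)|`, `f n = ∑_m ω m ee(n τ m)`; Cauchy: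
`(c²/4)|X|²|M|² ≤ |X| ∑_x |f(n x)|² ≤ |X| Gmax ∑_{n ∈ (0, B]} |f n|² ≤ |X| Gmax 10 (B + 1/δ) |M|`, `Gmax` = largest number of `x ∈ X` with the same `n x`;
`1/δ ≤ 2 G 4^(J+2) Q`, `Q ≤ |M| E`. So `|X| ≤ C E^(J+2) Gmax`; the `x` with `n x = b + 1` lie in `[y + b R, y + b R + Q^(J+1))`.
-/

set_option autoImplicit false

namespace Pool.Agent.H95.AS

open Finset Pool.Agent.H24.AB

private theorem ee_sub_one (t : ℝ) : ‖ee t - 1‖ ≤ 2 * Real.pi * |t| := by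
  have h1 := Real.norm_exp_I_mul_ofReal_sub_one_le (x := 2 * Real.pi * t)
  have h2 : ee t = Complex.exp (Complex.I * ((2 * Real.pi * t : ℝ) : ℂ)) := by
    unfold ee
    push_cast
    rw [mul_comm]
  rw [h2]
  refine h1.trans (le_of_eq ?_)
  rw [Real.norm_eq_abs, abs_mul, abs_of_pos Real.two_pi_pos]

/-- the core: dual large sieve and pigeonhole -/
private theorem concB (X M : Finset ℕ) (θ : ℕ → ℝ) (R B y : ℕ) (c δ : ℝ) (hR : 1 ≤ R) (hB : 1 ≤ B) (hc : 0 < c)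
    (hδ : 0 < δ) (hδ1 : δ ≤ 1) (hX : ∀ x ∈ X, y ≤ x ∧ (x - y) / R + 1 ≤ B)
    (hθ0 : ∀ m ∈ M, 0 ≤ θ m) (hθ1 : ∀ m ∈ M, 2 * Real.pi * (R * θ m) ≤ c / 2)
    (hsp : ∀ m ∈ M, ∀ m' ∈ M, m ≠ m' → ∀ k : ℤ, δ ≤ |R * θ m - R * θ m' - k|)
    (hS : ∀ m ∈ M, c * X.card ≤ ‖S X (θ m)‖) :
    ∃ b : ℕ, c ^ 2 / 4 * X.card * M.card ≤ 10 * (B + 1 / δ) * (X.filter fun x => (x - y) / R = b).card := by
  classical
  rcases X.eq_empty_or_nonempty with rfl | hXne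
  · exact ⟨0, by simp⟩
  rcases M.eq_empty_or_nonempty with rfl | hMne
  · refine ⟨0, ?_⟩
    rw [card_empty, Nat.cast_zero, mul_zero]
    positivity
  obtain ⟨nn, hnn⟩ : ∃ nn : ℕ → ℕ, nn = fun x => (x - y) / R + 1 := ⟨_, rfl⟩
  obtain ⟨W, hW⟩ : ∃ W : ℕ → ℂ, W = fun m => ∑ x ∈ X, ee ((nn x : ℝ) * (R * θ m)) := ⟨_, rfl⟩
  have hR0 : (0 : ℝ) < R := by exact_mod_cast hR
  have hWge : ∀ m ∈ M, c / 2 * X.card ≤ ‖W m‖ := by
    intro m hm
    have h1 : ∀ x ∈ X, ‖ee ((x : ℝ) * θ m) - ee ((y : ℝ) * θ m - R * θ m) * ee ((nn x : ℝ) * (R * θ m))‖ ≤ c / 2 := by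
      intro x hx
      obtain ⟨hxy, _⟩ := hX x hx
      have hdm : R * ((x - y) / R) + (x - y) % R = x - y := Nat.div_add_mod _ _
      have hlt : (x - y) % R < R := Nat.mod_lt _ hR
      have hn : nn x = (x - y) / R + 1 := by rw [hnn]
      generalize (x - y) / R = a at hdm hn
      generalize (x - y) % R = r at hdm hlt
      have hx1 : x = y + R * a + r := by omega
      have hx2 : (x : ℝ) = y + R * a + r := by exact_mod_cast hx1
      have e1 : (x : ℝ) * θ m = ((y : ℝ) * θ m - R * θ m) + (nn x : ℝ) * (R * θ m) + r * θ m := by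
        rw [hx2, hn]
        push_cast
        ring
      rw [e1, ee_add, ee_add]
      have e2 : ee ((y : ℝ) * θ m - R * θ m) * ee ((nn x : ℝ) * (R * θ m)) * ee (r * θ m) -
          ee ((y : ℝ) * θ m - R * θ m) * ee ((nn x : ℝ) * (R * θ m)) =
          ee ((y : ℝ) * θ m - R * θ m) * ee ((nn x : ℝ) * (R * θ m)) * (ee (r * θ m) - 1) := by ring
      rw [e2, norm_mul, norm_mul, ee_norm, ee_norm, one_mul, one_mul]
      refine (ee_sub_one _).trans (le_trans ?_ (hθ1 m hm))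
      have h3 : (0 : ℝ) ≤ r * θ m := mul_nonneg (Nat.cast_nonneg _) (hθ0 m hm)
      rw [abs_of_nonneg h3]
      have h4 : (r : ℝ) ≤ R := by exact_mod_cast hlt.le
      exact mul_le_mul_of_nonneg_left (mul_le_mul_of_nonneg_right h4 (hθ0 m hm)) Real.two_pi_pos.le
    have h2 : ‖S X (θ m) - ee ((y : ℝ) * θ m - R * θ m) * W m‖ ≤ c / 2 * X.card := by
      have e1 : S X (θ m) - ee ((y : ℝ) * θ m - R * θ m) * W m =
          ∑ x ∈ X, (ee ((x : ℝ) * θ m) - ee ((y : ℝ) * θ m - R * θ m) * ee ((nn x : ℝ) * (R * θ m))) := by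
        rw [S, hW, Finset.mul_sum, ← Finset.sum_sub_distrib]
      rw [e1]
      refine (norm_sum_le_of_le _ h1).trans (le_of_eq ?_)
      rw [sum_const, nsmul_eq_mul, mul_comm]
    have h3 := hS m hm
    have h4 := norm_le_norm_sub_add (S X (θ m)) (ee ((y : ℝ) * θ m - R * θ m) * W m)
    rw [norm_mul (ee _) (W m), ee_norm, one_mul] at h4
    linarith
  choose ω hω1 hω2 using fun m => RCLike.exists_norm_eq_mul_self (W m)
  obtain ⟨f, hf⟩ : ∃ f : ℕ → ℂ, f = fun n : ℕ => ∑ m ∈ M, ω m * ee ((n : ℝ) * (R * θ m)) := ⟨_, rfl⟩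
  have hfs : ∑ x ∈ X, f (nn x) = ((∑ m ∈ M, ‖W m‖ : ℝ) : ℂ) := by
    rw [hf]
    rw [Finset.sum_comm]
    push_cast
    refine sum_congr rfl fun m _ => ?_
    have h1 : ((‖W m‖ : ℝ) : ℂ) = ω m * W m := hω2 m
    rw [h1, hW, Finset.mul_sum]
  have h5 : c / 2 * X.card * M.card ≤ ∑ x ∈ X, ‖f (nn x)‖ := by
    have h6 : c / 2 * X.card * M.card ≤ ∑ m ∈ M, ‖W m‖ := by
      calc c / 2 * X.card * M.card = ∑ _m ∈ M, c / 2 * X.card := by
            rw [sum_const, nsmul_eq_mul]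
            ring
        _ ≤ ∑ m ∈ M, ‖W m‖ := sum_le_sum hWge
    have h7 : ‖∑ x ∈ X, f (nn x)‖ = ∑ m ∈ M, ‖W m‖ := by
      rw [hfs, Complex.norm_real, Real.norm_of_nonneg (sum_nonneg fun _ _ => norm_nonneg _)]
    have h8 := norm_sum_le X (fun x => f (nn x))
    linarith
  obtain ⟨x0, hx0, hmax⟩ := X.exists_max_image (fun x => (X.filter fun z => nn z = nn x).card) hXne
  obtain ⟨Gm, hGm⟩ : ∃ Gm, Gm = (X.filter fun z => nn z = nn x0).card := ⟨_, rfl⟩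
  have hle : ∀ n, (X.filter fun z => nn z = n).card ≤ Gm := by
    intro n
    rcases (X.filter fun z => nn z = n).eq_empty_or_nonempty with h | ⟨z, hz⟩
    · rw [h, card_empty]
      exact Nat.zero_le _
    · obtain ⟨hz1, hz2⟩ := mem_filter.1 hz
      rw [hGm, ← hz2]
      exact hmax z hz1
  have h8 : ∑ x ∈ X, ‖f (nn x)‖ ^ 2 ≤ (Gm : ℝ) * ∑ n ∈ Ioc 0 (0 + B), ‖f n‖ ^ 2 := by
    have hmaps : ∀ x ∈ X, nn x ∈ Ioc 0 (0 + B) := by
      intro x hx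
      have h1 := (hX x hx).2
      rw [hnn, mem_Ioc]
      show 0 < (x - y) / R + 1 ∧ (x - y) / R + 1 ≤ 0 + B
      exact ⟨Nat.succ_pos _, by rw [zero_add]; exact h1⟩
    rw [← Finset.sum_fiberwise_of_maps_to hmaps, Finset.mul_sum]
    refine sum_le_sum fun n _ => ?_
    calc ∑ x ∈ X.filter (fun x => nn x = n), ‖f (nn x)‖ ^ 2 = ∑ _x ∈ X.filter (fun x => nn x = n), ‖f n‖ ^ 2 :=
          sum_congr rfl fun x hx => by rw [(mem_filter.1 hx).2]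
      _ = ((X.filter fun x => nn x = n).card : ℝ) * ‖f n‖ ^ 2 := by rw [sum_const, nsmul_eq_mul]
      _ ≤ (Gm : ℝ) * ‖f n‖ ^ 2 := mul_le_mul_of_nonneg_right (by exact_mod_cast hle n) (by positivity)
  have hL := large_sieve M (fun m => R * θ m) ω δ hδ hδ1 hsp 0 B hB
  have hω : ∑ i ∈ M, ‖ω i‖ ^ 2 = M.card := by
    rw [sum_congr rfl fun i _ => by rw [hω1 i, one_pow], sum_const, nsmul_eq_mul, mul_one]
  rw [hω] at hL
  have hL' : ∑ n ∈ Ioc 0 (0 + B), ‖f n‖ ^ 2 ≤ 10 * (B + 1 / δ) * M.card := by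
    rw [hf]
    exact hL
  have h9 := sq_sum_le_card_mul_sum_sq (s := X) (f := fun x => ‖f (nn x)‖)
  have hXc : (0 : ℝ) < X.card := by exact_mod_cast card_pos.2 hXne
  have hMc : (0 : ℝ) < M.card := by exact_mod_cast card_pos.2 hMne
  have h10 : (c / 2 * X.card * M.card) ^ 2 ≤ X.card * (Gm * (10 * (B + 1 / δ) * M.card)) := by
    have h11 : (c / 2 * X.card * M.card) ^ 2 ≤ (∑ x ∈ X, ‖f (nn x)‖) ^ 2 :=
      pow_le_pow_left₀ (by positivity) h5 2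
    refine h11.trans (h9.trans (mul_le_mul_of_nonneg_left (h8.trans ?_) hXc.le))
    exact mul_le_mul_of_nonneg_left hL' (Nat.cast_nonneg _)
  refine ⟨(x0 - y) / R, ?_⟩
  have e3 : (X.filter fun x => (x - y) / R = (x0 - y) / R) = X.filter fun z => nn z = nn x0 := by
    refine filter_congr fun x _ => ?_
    rw [hnn]
    exact (Nat.add_right_cancel_iff).symm
  rw [e3, ← hGm]
  have h12 : (X.card * M.card : ℝ) * (c ^ 2 / 4 * X.card * M.card) ≤ (X.card * M.card : ℝ) * (10 * (B + 1 / δ) * Gm) := by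
    have e4 : (X.card * M.card : ℝ) * (c ^ 2 / 4 * X.card * M.card) = (c / 2 * X.card * M.card) ^ 2 := by ring
    have e5 : (X.card * M.card : ℝ) * (10 * (B + 1 / δ) * Gm) = X.card * (Gm * (10 * (B + 1 / δ) * M.card)) := by ring
    rw [e4, e5]
    exact h10
  exact le_of_mul_le_mul_left h12 (mul_pos hXc hMc)

/-- the bounds for the frequencies -/
private theorem theta_bd (J E Q a : ℕ) (ks : List ℕ) (m : ℕ) (hQ : 1 ≤ Q) (haE : a ≤ E)
    (hks : ks.length = J) (hk : ∀ k ∈ ks, 1 ≤ k ∧ k ≤ E) (hm : Q < m) :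
    0 ≤ (a : ℝ) * dl (T 0) ks m ∧ (a : ℝ) * dl (T 0) ks m ≤ (E : ℝ) ^ (J + 1) * J.factorial / (Q : ℝ) ^ (J + 1) := by
  have hm1 : 1 ≤ m := by omega
  have hup := dl_upper ks 0 m hm1 fun k h => (hk k h).1
  have hlo := dl_lower ks 0 m hm1 fun k h => (hk k h).1
  rw [zero_add, hks] at hup hlo
  have h0 : 0 ≤ dl (T 0) ks m := le_trans (by positivity) hlo
  have hP : ks.prod ≤ E ^ J := by
    have h1 := List.prod_le_pow_card ks E fun k h => (hk k h).2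
    rw [hks] at h1
    exact h1
  have hP' : (ks.prod : ℝ) ≤ (E : ℝ) ^ J := by exact_mod_cast hP
  have hQ0 : (0 : ℝ) < Q := by exact_mod_cast hQ
  have hmQ : (Q : ℝ) ≤ m := by exact_mod_cast hm.le
  have haE' : (a : ℝ) ≤ E := by exact_mod_cast haE
  refine ⟨mul_nonneg (Nat.cast_nonneg _) h0, ?_⟩
  have h2 : dl (T 0) ks m ≤ (E : ℝ) ^ J * J.factorial / (Q : ℝ) ^ (J + 1) := by
    refine hup.trans ?_
    refine div_le_div₀ (by positivity) (mul_le_mul_of_nonneg_right hP' (by positivity)) (by positivity) ?_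
    exact pow_le_pow_left₀ hQ0.le hmQ _
  calc (a : ℝ) * dl (T 0) ks m ≤ E * ((E : ℝ) ^ J * J.factorial / (Q : ℝ) ^ (J + 1)) :=
        mul_le_mul haE' h2 h0 (Nat.cast_nonneg _)
    _ = (E : ℝ) ^ (J + 1) * J.factorial / (Q : ℝ) ^ (J + 1) := by
        rw [pow_succ (E : ℝ) J]
        ring

private theorem one_le_prod : ∀ ks : List ℕ, (∀ k ∈ ks, 1 ≤ k) → 1 ≤ ks.prod
  | [], _ => le_rfl
  | k :: ks, h => by
    rw [List.prod_cons]
    exact Nat.mul_pos (h k (List.mem_cons_self ..)) (one_le_prod ks fun j hj => h j (List.mem_cons_of_mem _ hj))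

/-- the spacing of the frequencies -/
private theorem theta_sp (J Q a : ℕ) (ks : List ℕ) (m m' : ℕ) (hQ : 1 ≤ Q) (ha : 1 ≤ a)
    (hks : ks.length = J) (hk : ∀ k ∈ ks, 1 ≤ k) (hsum : ks.sum ≤ 2 * Q) (hm : Q < m) (hmm : m < m') (hm' : m' ≤ 2 * Q) :
    1 / (4 * (Q : ℝ)) ^ (J + 2) ≤ (a : ℝ) * dl (T 0) ks m - (a : ℝ) * dl (T 0) ks m' := by
  obtain ⟨l, rfl⟩ := Nat.exists_eq_add_of_lt hmm
  have e1 : m + l + 1 = m + (l + 1) := by ring
  rw [e1, ← mul_sub, ← dl_diff]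
  have hk' : ∀ k ∈ (l + 1) :: ks, 1 ≤ k := by
    intro k hk1
    rcases List.mem_cons.1 hk1 with rfl | h
    · omega
    · exact hk k h
  have hlo := dl_lower ((l + 1) :: ks) 0 m (by omega) hk'
  rw [zero_add, List.length_cons, hks, List.prod_cons, List.sum_cons] at hlo
  have hP : 1 ≤ (l + 1) * ks.prod := by
    have h1 : 1 ≤ ks.prod := one_le_prod ks hk
    exact Nat.mul_le_mul (by omega : 1 ≤ l + 1) h1
  have hP' : (1 : ℝ) ≤ (((l + 1) * ks.prod : ℕ) : ℝ) := by exact_mod_cast hP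
  have hf : (1 : ℝ) ≤ ((J + 1).factorial : ℝ) := by exact_mod_cast Nat.factorial_pos _
  have hs : (m : ℝ) + ((l + 1 + ks.sum : ℕ) : ℝ) + ((0 : ℕ) : ℝ) ≤ 4 * Q := by
    have h1 : m + (l + 1 + ks.sum) + 0 ≤ 4 * Q := by omega
    exact_mod_cast h1
  have hs0 : (0 : ℝ) < (m : ℝ) + ((l + 1 + ks.sum : ℕ) : ℝ) + ((0 : ℕ) : ℝ) := by
    have h1 : 0 < m + (l + 1 + ks.sum) + 0 := by omega
    exact_mod_cast h1
  have h2 : 1 / (4 * (Q : ℝ)) ^ (J + 2) ≤ dl (T 0) ((l + 1) :: ks) m := by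
    refine le_trans ?_ hlo
    refine div_le_div₀ (by positivity) ?_ (by positivity) (pow_le_pow_left₀ hs0.le hs _)
    calc (1 : ℝ) = 1 * 1 := by ring
      _ ≤ (((l + 1) * ks.prod : ℕ) : ℝ) * ((J + 1).factorial : ℝ) := mul_le_mul hP' hf zero_le_one (by positivity)
  have h3 : (1 : ℝ) ≤ a := by exact_mod_cast ha
  have h4 : (0 : ℝ) ≤ dl (T 0) ((l + 1) :: ks) m := le_trans (by positivity) h2
  calc 1 / (4 * (Q : ℝ)) ^ (J + 2) ≤ dl (T 0) ((l + 1) :: ks) m := h2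
    _ = 1 * dl (T 0) ((l + 1) :: ks) m := (one_mul _).symm
    _ ≤ a * dl (T 0) ((l + 1) :: ks) m := mul_le_mul_of_nonneg_right h3 h4

theorem conc (J : ℕ) (c : ℝ) (hc : 0 < c) (hc1 : c ≤ 1) :
    ∃ C : ℕ, 1 ≤ C ∧ ∀ (E Q a y : ℕ) (ks : List ℕ) (M X : Finset ℕ), 1 ≤ E → C * E ^ (J + 1) ≤ Q →
      1 ≤ a → a ≤ E → ks.length = J → (∀ k ∈ ks, 1 ≤ k ∧ k ≤ E) → ks.sum ≤ 2 * Q →
      (∀ m ∈ M, Q < m ∧ m ≤ 2 * Q) → Q ≤ M.card * E →
      (∀ x ∈ X, y ≤ x ∧ x < y + Q ^ (J + 2)) →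
      (∀ m ∈ M, c * X.card ≤ ‖S X ((a : ℝ) * dl (T 0) ks m)‖) →
      ∃ y' : ℕ, X.card ≤ C * E ^ (J + 2) *
        (X.filter (fun x => y' ≤ x ∧ x < y' + Q ^ (J + 1))).card := by
  obtain ⟨G0, hG0⟩ : ∃ G0 : ℕ, G0 = ⌈8 * Real.pi / c⌉₊ + 4 := ⟨_, rfl⟩
  have hG0c : 8 * Real.pi / c ≤ G0 := by
    rw [hG0]
    push_cast
    have := Nat.le_ceil (8 * Real.pi / c)
    linarith
  have hG04 : 4 ≤ G0 := by omega
  have hJ : 1 ≤ J.factorial := Nat.factorial_pos _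
  obtain ⟨K, hK⟩ : ∃ K : ℕ, K = ⌈40 / c ^ 2 * 4 ^ (J + 3) * (G0 * J.factorial : ℕ)⌉₊ := ⟨_, rfl⟩
  have hKc : 40 / c ^ 2 * 4 ^ (J + 3) * ((G0 * J.factorial : ℕ) : ℝ) ≤ K := by
    rw [hK]
    exact Nat.le_ceil _
  refine ⟨K + G0 * J.factorial + 1, by omega, ?_⟩
  intro E Q a y ks M X hE hCQ ha haE hks hk hsum hM hMQ hX hS
  have hEp : 1 ≤ E ^ (J + 1) := Nat.one_le_pow _ _ hE
  obtain ⟨G, hG⟩ : ∃ G : ℕ, G = G0 * J.factorial * E ^ (J + 1) := ⟨_, rfl⟩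
  have hG1 : 1 ≤ G := by
    rw [hG]
    exact Nat.mul_pos (Nat.mul_pos (by omega) hJ) hEp
  have hGQ : G ≤ Q := by
    refine le_trans ?_ hCQ
    rw [hG]
    exact Nat.mul_le_mul_right _ (by omega)
  have hQ : 1 ≤ Q := hG1.trans hGQ
  have hQ0 : (0 : ℝ) < Q := by exact_mod_cast hQ
  obtain ⟨R, hR⟩ : ∃ R : ℕ, R = Q ^ (J + 1) / G := ⟨_, rfl⟩
  have hQp : Q ≤ Q ^ (J + 1) := Nat.le_self_pow (by omega) Q
  have hR1 : 1 ≤ R := by
    rw [hR]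
    exact Nat.div_pos (hGQ.trans hQp) (by omega)
  have hR0 : (0 : ℝ) < R := by exact_mod_cast hR1
  have hGR : G * R ≤ Q ^ (J + 1) := by
    rw [hR]
    exact Nat.mul_div_le _ _
  have hRQ : R ≤ Q ^ (J + 1) := (Nat.le_mul_of_pos_left R (by omega)).trans hGR
  have hRG : Q ^ (J + 1) ≤ 2 * (G * R) := by
    have h1 := Nat.div_add_mod (Q ^ (J + 1)) G
    have h2 := Nat.mod_lt (Q ^ (J + 1)) (by omega : 0 < G)
    rw [← hR] at h1
    have h3 : G * 1 ≤ G * R := Nat.mul_le_mul_left _ hR1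
    omega
  have hGR' : (G : ℝ) * R ≤ (Q : ℝ) ^ (J + 1) := by exact_mod_cast hGR
  have hRG' : (Q : ℝ) ^ (J + 1) ≤ 2 * (G * R) := by exact_mod_cast hRG
  have hRQ' : (R : ℝ) ≤ (Q : ℝ) ^ (J + 1) := by exact_mod_cast hRQ
  have hG0p : (0 : ℝ) < G0 := by
    have : 0 < G0 := by omega
    exact_mod_cast this
  have hGp : (0 : ℝ) < G := by exact_mod_cast hG1
  have hGe : (G : ℝ) = G0 * (J.factorial * (E : ℝ) ^ (J + 1)) := by
    rw [hG]
    push_cast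
    ring
  have hth : ∀ m ∈ M, 0 ≤ (a : ℝ) * dl (T 0) ks m ∧ R * ((a : ℝ) * dl (T 0) ks m) ≤ 1 / G0 := by
    intro m hm
    obtain ⟨h1, h2⟩ := theta_bd J E Q a ks m hQ haE hks hk (hM m hm).1
    refine ⟨h1, ?_⟩
    have h3 : (E : ℝ) ^ (J + 1) * J.factorial = G / G0 := by
      rw [hGe]
      field_simp
    rw [h3] at h2
    calc R * ((a : ℝ) * dl (T 0) ks m) ≤ R * (G / G0 / (Q : ℝ) ^ (J + 1)) := mul_le_mul_of_nonneg_left h2 hR0.le
      _ = (G * R) / (Q : ℝ) ^ (J + 1) * (1 / G0) := by ring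
      _ ≤ 1 * (1 / G0) := by
          refine mul_le_mul_of_nonneg_right ?_ (by positivity)
          rw [div_le_one (by positivity)]
          exact hGR'
      _ = 1 / G0 := one_mul _
  have hinv4 : 1 / (G0 : ℝ) ≤ 1 / 4 := by
    refine one_div_le_one_div_of_le (by norm_num) ?_
    exact_mod_cast hG04
  have hinvc : 2 * Real.pi * (1 / (G0 : ℝ)) ≤ c / 2 := by
    rw [div_le_iff₀ hc] at hG0c
    have h1 : 2 * Real.pi * (1 / (G0 : ℝ)) = 2 * Real.pi / G0 := by ring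
    rw [h1, div_le_iff₀ hG0p]
    have := Real.pi_pos
    nlinarith
  have h4Q : (0 : ℝ) < (4 * (Q : ℝ)) ^ (J + 2) := by positivity
  have hδ0 : 0 < (R : ℝ) / (4 * (Q : ℝ)) ^ (J + 2) := div_pos hR0 h4Q
  have hδ1 : (R : ℝ) / (4 * (Q : ℝ)) ^ (J + 2) ≤ 1 / 4 := by
    rw [div_le_iff₀ h4Q]
    have h1 : (Q : ℝ) ^ (J + 1) ≤ (4 * (Q : ℝ)) ^ (J + 1) := pow_le_pow_left₀ hQ0.le (by linarith) _
    have h2 : (4 * (Q : ℝ)) ^ (J + 2) = (4 * (Q : ℝ)) ^ (J + 1) * (4 * Q) := pow_succ _ _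
    have h3 : (1 : ℝ) ≤ Q := by exact_mod_cast hQ
    have h5 : (0 : ℝ) < (4 * (Q : ℝ)) ^ (J + 1) := by positivity
    rw [h2]
    nlinarith
  have hlt : ∀ m ∈ M, ∀ m' ∈ M, m < m' →
      (R : ℝ) / (4 * (Q : ℝ)) ^ (J + 2) ≤ R * ((a : ℝ) * dl (T 0) ks m) - R * ((a : ℝ) * dl (T 0) ks m') := by
    intro m hm m' hm' h
    have h1 := theta_sp J Q a ks m m' hQ ha hks (fun k h => (hk k h).1) hsum (hM m hm).1 h (hM m' hm').2
    have h2 := mul_le_mul_of_nonneg_left h1 hR0.le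
    rw [mul_sub] at h2
    rw [div_eq_mul_one_div]
    exact h2
  have hsp : ∀ m ∈ M, ∀ m' ∈ M, m ≠ m' → ∀ k : ℤ, (R : ℝ) / (4 * (Q : ℝ)) ^ (J + 2) ≤
      |R * ((a : ℝ) * dl (T 0) ks m) - R * ((a : ℝ) * dl (T 0) ks m') - k| := by
    intro m hm m' hm' hne k
    have b1 := (hth m hm).1
    have b2 := (hth m hm).2
    have b3 := (hth m' hm').1
    have b4 := (hth m' hm').2
    have b1' : 0 ≤ R * ((a : ℝ) * dl (T 0) ks m) := mul_nonneg hR0.le b1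
    have b3' : 0 ≤ R * ((a : ℝ) * dl (T 0) ks m') := mul_nonneg hR0.le b3
    rcases lt_trichotomy k 0 with hk0 | hk0 | hk0
    · have h1 : (k : ℝ) ≤ -1 := by exact_mod_cast (by omega : k ≤ -1)
      refine le_trans ?_ (le_abs_self _)
      linarith
    · rw [hk0, Int.cast_zero, sub_zero]
      rcases lt_or_gt_of_ne hne with h | h
      · exact (hlt m hm m' hm' h).trans (le_abs_self _)
      · refine (hlt m' hm' m hm h).trans ?_
        rw [abs_sub_comm]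
        exact le_abs_self _
    · have h1 : (1 : ℝ) ≤ k := by exact_mod_cast (by omega : 1 ≤ k)
      refine le_trans ?_ (neg_le_abs _)
      linarith
  obtain ⟨b, hb⟩ := concB X M (fun m => (a : ℝ) * dl (T 0) ks m) R (Q ^ (J + 2) / R + 1) y c
    ((R : ℝ) / (4 * (Q : ℝ)) ^ (J + 2)) hR1 (Nat.succ_pos _) hc hδ0 (by linarith)
    (fun x hx => ⟨(hX x hx).1, Nat.succ_le_succ (Nat.div_le_div_right (by have := hX x hx; omega))⟩)
    (fun m hm => (hth m hm).1)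
    (fun m hm => (mul_le_mul_of_nonneg_left (hth m hm).2 Real.two_pi_pos.le).trans hinvc) hsp hS
  refine ⟨y + R * b, ?_⟩
  obtain ⟨F, hF⟩ : ∃ F, F = (X.filter fun x => (x - y) / R = b).card := ⟨_, rfl⟩
  rw [← hF] at hb
  have hFle : F ≤ (X.filter (fun x => y + R * b ≤ x ∧ x < y + R * b + Q ^ (J + 1))).card := by
    rw [hF]
    refine card_le_card fun x hx => ?_
    obtain ⟨hx1, hx2⟩ := mem_filter.1 hx
    have h1 := (hX x hx1).1
    have h2 := Nat.div_add_mod (x - y) R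
    have h3 := Nat.mod_lt (x - y) (by omega : 0 < R)
    rw [hx2] at h2
    exact mem_filter.2 ⟨hx1, by omega, by omega⟩
  have hMQ' : (Q : ℝ) ≤ M.card * E := by exact_mod_cast hMQ
  have hMpos : (0 : ℝ) < M.card := by
    rcases Nat.eq_zero_or_pos M.card with h | h
    · rw [h, zero_mul] at hMQ
      omega
    · exact_mod_cast h
  have hGge : (1 : ℝ) ≤ G := by exact_mod_cast hG1
  have hQge : (1 : ℝ) ≤ Q := by exact_mod_cast hQ
  have hBd : ((Q ^ (J + 2) / R + 1 : ℕ) : ℝ) + 1 / ((R : ℝ) / (4 * (Q : ℝ)) ^ (J + 2)) ≤ 4 ^ (J + 3) * G * Q := by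
    have h0 : (Q : ℝ) ^ (J + 1) / R ≤ 2 * G := by
      rw [div_le_iff₀ hR0]
      linarith
    have h1 : ((Q ^ (J + 2) / R : ℕ) : ℝ) ≤ 2 * G * Q := by
      have h2 : ((Q ^ (J + 2) / R : ℕ) : ℝ) ≤ ((Q ^ (J + 2) : ℕ) : ℝ) / R := Nat.cast_div_le
      refine h2.trans ?_
      have e : ((Q ^ (J + 2) : ℕ) : ℝ) / R = (Q : ℝ) ^ (J + 1) / R * Q := by
        push_cast
        ring
      rw [e]
      exact mul_le_mul_of_nonneg_right h0 hQ0.le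
    have h3 : 1 / ((R : ℝ) / (4 * (Q : ℝ)) ^ (J + 2)) ≤ 4 ^ (J + 2) * (2 * G * Q) := by
      have e : 1 / ((R : ℝ) / (4 * (Q : ℝ)) ^ (J + 2)) = 4 ^ (J + 2) * ((Q : ℝ) ^ (J + 1) / R * Q) := by
        rw [one_div_div, mul_pow]
        ring
      rw [e]
      exact mul_le_mul_of_nonneg_left (mul_le_mul_of_nonneg_right h0 hQ0.le) (by positivity)
    have h4 : (4 : ℝ) ^ (J + 3) = 4 * 4 ^ (J + 2) := by ring
    have h5 : (1 : ℝ) ≤ 4 ^ (J + 2) := one_le_pow₀ (by norm_num)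
    have h6 : (1 : ℝ) ≤ G * Q := by nlinarith
    push_cast at h1 ⊢
    rw [h4]
    have h7 : (3 : ℝ) * (G * Q) ≤ 2 * 4 ^ (J + 2) * (G * Q) := by
      have h8 : (3 : ℝ) ≤ 2 * 4 ^ (J + 2) := by
        have h9 : (4 : ℝ) ^ (J + 2) = 4 ^ J * 16 := by ring
        have h10 : (1 : ℝ) ≤ 4 ^ J := one_le_pow₀ (by norm_num)
        linarith
      exact mul_le_mul_of_nonneg_right h8 (by linarith)
    linarith
  have hF0 : (0 : ℝ) ≤ F := Nat.cast_nonneg _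
  have hfin : c ^ 2 / 4 * X.card ≤ 10 * (4 ^ (J + 3) * G * E) * F := by
    have h1 : c ^ 2 / 4 * X.card * M.card ≤ 10 * (4 ^ (J + 3) * G * E) * F * M.card := by
      calc c ^ 2 / 4 * X.card * M.card ≤ 10 * (((Q ^ (J + 2) / R + 1 : ℕ) : ℝ) +
            1 / ((R : ℝ) / (4 * (Q : ℝ)) ^ (J + 2))) * F := hb
        _ ≤ 10 * (4 ^ (J + 3) * G * Q) * F :=
            mul_le_mul_of_nonneg_right (mul_le_mul_of_nonneg_left hBd (by norm_num)) hF0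
        _ ≤ 10 * (4 ^ (J + 3) * G * (M.card * E)) * F := by
            refine mul_le_mul_of_nonneg_right (mul_le_mul_of_nonneg_left ?_ (by norm_num)) hF0
            exact mul_le_mul_of_nonneg_left hMQ' (by positivity)
        _ = 10 * (4 ^ (J + 3) * G * E) * F * M.card := by ring
    exact le_of_mul_le_mul_right h1 hMpos
  have hX2 : (X.card : ℝ) ≤ K * (E : ℝ) ^ (J + 2) * F := by
    have h1 : (X.card : ℝ) = 4 / c ^ 2 * (c ^ 2 / 4 * X.card) := by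
      field_simp
    rw [h1]
    calc 4 / c ^ 2 * (c ^ 2 / 4 * X.card) ≤ 4 / c ^ 2 * (10 * (4 ^ (J + 3) * G * E) * F) :=
          mul_le_mul_of_nonneg_left hfin (by positivity)
      _ = (40 / c ^ 2 * 4 ^ (J + 3) * ((G0 * J.factorial : ℕ) : ℝ)) * (E : ℝ) ^ (J + 2) * F := by
          rw [hGe]
          push_cast
          ring
      _ ≤ K * (E : ℝ) ^ (J + 2) * F :=
          mul_le_mul_of_nonneg_right (mul_le_mul_of_nonneg_right hKc (by positivity)) hF0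
  have hX3 : X.card ≤ K * E ^ (J + 2) * F := by exact_mod_cast hX2
  calc X.card ≤ K * E ^ (J + 2) * F := hX3
    _ ≤ (K + G0 * J.factorial + 1) * E ^ (J + 2) * F :=
        Nat.mul_le_mul_right _ (Nat.mul_le_mul_right _ (by omega))
    _ ≤ _ := Nat.mul_le_mul_left _ hFle

end Pool.Agent.H95.AS
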