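import Pool.Agent.H24.AB.LS

/-!
# [H95 AS] Sieving by missed arithmetic progressions: definitions

MP_20b81e_nt. `ee t = exp(2 pi i t)` (`Pool.Agent.H24.AB`).
-/

set_option autoImplicit false

namespace Pool.Agent.H95.AS

open Finset Pool.Agent.H24.AB

/-- the exponential sum of the set `X` at `θ` -/
noncomputable def S (X : Finset ℕ) (θ : ℝ) : ℂ := ∑ x ∈ X, ee ((x : ℝ) * θ)

/-- iterated differences: `dl g [k₁, ..., k_J] m`, where one difference is `g m - g (m + k)` -/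
def dl : (ℕ → ℝ) → List ℕ → ℕ → ℝ
  | g, [], m => g m
  | g, k :: ks, m => dl (fun m => g m - g (m + k)) ks m

/-- `j! / (m (m+1) ... (m+j))`; `T 0 m = 1/m` -/
noncomputable def T (j m : ℕ) : ℝ := (j.factorial : ℝ) / ∏ i ∈ range (j + 1), ((m : ℝ) + i)

/-- modulo `m` the set `X` misses an interval of (at least) `κ m` consecutive residue classes -/
def Miss (κ : ℝ) (m : ℕ) (X : Finset ℕ) : Prop :=
  ∃ u : ℤ, ∀ x ∈ X, ∀ i : ℕ, (i : ℝ) < κ * m → ¬ (x : ℤ) ≡ u + i [ZMOD m]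

end Pool.Agent.H95.AS
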