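import Pool.Agent.H95.AS.Step

/-!
# [H95 AS Iter] The iterated differencing step
-/

set_option autoImplicit false

namespace Pool.Agent.H95.AS

open Finset Pool.Agent.H24.AB

theorem iter (J : ℕ) : ∀ c : ℝ, 0 < c →
    ∃ (C e : ℕ) (c' : ℝ), 1 ≤ C ∧ 0 < c' ∧ ∀ D Q : ℕ, 1 ≤ D → C * D ^ e ≤ Q → ∀ (M X : Finset ℕ) (g : ℕ → ℝ),
      (∀ m ∈ M, Q < m ∧ m ≤ 2 * Q) → Q ≤ M.card * D →
      (∀ m ∈ M, c * X.card ≤ ‖S X (g m)‖) →
      ∃ ks : List ℕ, ks.length = J ∧ (∀ k ∈ ks, 1 ≤ k ∧ k ≤ C * D ^ e) ∧ ∃ M' ⊆ M, Q ≤ M'.card * (C * D ^ e) ∧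
        ∀ m ∈ M', c' * X.card ≤ ‖S X (dl g ks m)‖ := by
  induction J with
  | zero =>
    intro c hc
    refine ⟨1, 1, c, le_rfl, hc, fun D Q hD _ M X g hM hMc hb => ⟨[], rfl, ?_, M, Finset.Subset.refl _, ?_, ?_⟩⟩
    · intro k hk
      simp at hk
    · simpa using hMc
    · intro m hm
      exact hb m hm
  | succ J ih =>
    intro c hc
    obtain ⟨C1, hC1, h1⟩ := step c hc
    obtain ⟨C2, e2, c', hC2, hc', h2⟩ := ih (c ^ 2 / 2) (by positivity)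
    refine ⟨C1 * (C2 * C1 ^ e2), 3 * e2 + 1, c', ?_, hc', ?_⟩
    · exact Nat.one_le_iff_ne_zero.2 (by positivity)
    intro D Q hD hQ M X g hM hMc hb
    have hA1 : 1 ≤ C2 * C1 ^ e2 := Nat.one_le_iff_ne_zero.2 (by positivity)
    have hD3 : D ^ (3 * e2 + 1) = D * (D ^ 3) ^ e2 := by
      rw [pow_succ, pow_mul]
      ring
    have hD4 : 1 ≤ (D ^ 3) ^ e2 := Nat.one_le_iff_ne_zero.2 (by positivity)
    have hle1 : C1 * D ≤ C1 * (C2 * C1 ^ e2) * D ^ (3 * e2 + 1) := by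
      rw [hD3]
      calc C1 * D = C1 * 1 * (D * 1) := by ring
        _ ≤ C1 * (C2 * C1 ^ e2) * (D * (D ^ 3) ^ e2) := by gcongr
    have hle2 : C2 * (C1 * D ^ 3) ^ e2 ≤ C1 * (C2 * C1 ^ e2) * D ^ (3 * e2 + 1) := by
      rw [hD3, mul_pow]
      calc C2 * (C1 ^ e2 * (D ^ 3) ^ e2) = 1 * (C2 * C1 ^ e2) * (1 * (D ^ 3) ^ e2) := by ring
        _ ≤ C1 * (C2 * C1 ^ e2) * (D * (D ^ 3) ^ e2) := by gcongr
    obtain ⟨k, hk1, hk2, M1, hM1, hM1c, hb1⟩ := h1 D Q hD (hle1.trans hQ) M X g hM hMc hb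
    obtain ⟨ks, hks1, hks2, M', hM', hM'c, hb'⟩ := h2 (C1 * D ^ 3) Q
      (Nat.one_le_iff_ne_zero.2 (by positivity)) (hle2.trans hQ) M1 X (fun m => g m - g (m + k))
      (fun m hm => hM m (hM1 hm)) hM1c hb1
    refine ⟨k :: ks, by simp [hks1], ?_, M', hM'.trans hM1, ?_, ?_⟩
    · intro k' hk'
      rcases List.mem_cons.1 hk' with rfl | hk'
      · exact ⟨hk1, hk2.trans hle1⟩
      · exact ⟨(hks2 k' hk').1, (hks2 k' hk').2.trans hle2⟩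
    · exact hM'c.trans (Nat.mul_le_mul_left _ hle2)
    · intro m hm
      exact hb' m hm

end Pool.Agent.H95.AS
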