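import Pool.Agent.H95.AS.Iter
import Pool.Agent.H95.AS.Bias
import Pool.Agent.H95.AS.Conc

/-!
# [H95 AS Main] Sieving by missed arcs
-/

set_option autoImplicit false

namespace Pool.Agent.H95.AS

open Finset Pool.Agent.H24.AB

theorem Miss.mono {κ : ℝ} {m : ℕ} {X Y : Finset ℕ} (h : Miss κ m X) (hY : Y ⊆ X) : Miss κ m Y := by
  obtain ⟨u, hu⟩ := h
  exact ⟨u, fun x hx => hu x (hY hx)⟩

theorem T_zero (m : ℕ) : T 0 m = 1 / (m : ℝ) := by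
  simp [T]

theorem sum_le_of_le (ks : List ℕ) (E : ℕ) (h : ∀ k ∈ ks, k ≤ E) : ks.sum ≤ ks.length * E := by
  induction ks with
  | nil => simp
  | cons k ks ih =>
    have h1 := h k List.mem_cons_self
    have h2 := ih fun k' hk' => h k' (List.mem_cons_of_mem _ hk')
    rw [List.sum_cons, List.length_cons]
    calc k + ks.sum ≤ E + ks.length * E := Nat.add_le_add h1 h2
      _ = (ks.length + 1) * E := by ring

theorem stage (κ : ℝ) (hκ : 0 < κ) (hκ1 : κ ≤ 1) (J : ℕ) :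
    ∃ C e : ℕ, 1 ≤ C ∧ ∀ D Q : ℕ, 1 ≤ D → C * D ^ e ≤ Q → ∀ (M X : Finset ℕ) (y : ℕ),
      (∀ m ∈ M, Q < m ∧ m ≤ 2 * Q) → Q ≤ M.card * D → (∀ m ∈ M, Miss κ m X) →
      (∀ x ∈ X, y ≤ x ∧ x < y + Q ^ (J + 2)) →
      ∃ y' : ℕ, X.card ≤ C * D ^ e * (X.filter (fun x => y' ≤ x ∧ x < y' + Q ^ (J + 1))).card := by
  obtain ⟨n, c, hn, hc, hbias⟩ := bias κ hκ hκ1
  obtain ⟨C1, e1, c', hC1, hc', hiter⟩ := iter J c hc
  obtain ⟨C2, hC2, hconc⟩ := conc J (min c' 1) (by positivity) (min_le_right _ _)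
  set A : ℕ := n * (C1 * n ^ e1) with hA
  have hA1 : 1 ≤ A := Nat.one_le_iff_ne_zero.2 (by positivity)
  refine ⟨(J + 1) * C2 * A ^ (J + 2), e1 * (J + 2), Nat.one_le_iff_ne_zero.2 (by positivity), ?_⟩
  intro D Q hD hQ M X y hM hMc hmiss hX
  set E : ℕ := A * D ^ e1 with hE
  have hE1 : 1 ≤ E := Nat.one_le_iff_ne_zero.2 (by positivity)
  have hEpow : (J + 1) * C2 * A ^ (J + 2) * D ^ (e1 * (J + 2)) = (J + 1) * C2 * E ^ (J + 2) := by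
    rw [hE, mul_pow, pow_mul]
    ring
  rw [hEpow] at hQ ⊢
  have hEE : E ≤ E ^ (J + 2) := by
    calc E = E ^ 1 := (pow_one _).symm
      _ ≤ E ^ (J + 2) := Nat.pow_le_pow_right hE1 (by omega)
  have hEE' : E ^ (J + 1) ≤ E ^ (J + 2) := Nat.pow_le_pow_right hE1 (by omega)
  have hC1E : C1 * (n * D) ^ e1 ≤ E := by
    rw [hE, hA, mul_pow]
    calc C1 * (n ^ e1 * D ^ e1) = 1 * (C1 * n ^ e1) * D ^ e1 := by ring
      _ ≤ n * (C1 * n ^ e1) * D ^ e1 := by gcongr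
  have hnE : n ≤ E := by
    rw [hE, hA]
    have h1 : 1 ≤ C1 * n ^ e1 := Nat.one_le_iff_ne_zero.2 (by positivity)
    have h2 : 1 ≤ D ^ e1 := Nat.one_le_iff_ne_zero.2 (by positivity)
    calc n = n * 1 * 1 := by ring
      _ ≤ n * (C1 * n ^ e1) * D ^ e1 := by gcongr
  have hQ1 : (J + 1) * E ≤ Q := by
    refine le_trans ?_ hQ
    calc (J + 1) * E = (J + 1) * 1 * E := by ring
      _ ≤ (J + 1) * C2 * E ^ (J + 2) := by gcongr
  have hQ2 : C2 * E ^ (J + 1) ≤ Q := by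
    refine le_trans ?_ hQ
    calc C2 * E ^ (J + 1) = 1 * C2 * E ^ (J + 1) := by ring
      _ ≤ (J + 1) * C2 * E ^ (J + 2) := by gcongr; omega
  have hQE : E ≤ Q := le_trans (Nat.le_mul_of_pos_left _ (by omega)) hQ1
  -- pigeonhole over the frequency
  have hcover : M ⊆ (Icc 1 n).biUnion (fun a => M.filter (fun m : ℕ => c * (X.card : ℝ) ≤ ‖S X ((a : ℝ) / (m : ℝ))‖)) := by
    intro m hm
    obtain ⟨a, ha1, ha2, ha3⟩ := hbias m (by have := hM m hm; omega) X (hmiss m hm)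
    rw [mem_biUnion]
    exact ⟨a, mem_Icc.2 ⟨ha1, ha2⟩, mem_filter.2 ⟨hm, ha3⟩⟩
  have hpig : ∃ a ∈ Icc 1 n, M.card ≤ n * (M.filter (fun m : ℕ => c * (X.card : ℝ) ≤ ‖S X ((a : ℝ) / (m : ℝ))‖)).card := by
    by_contra hcon
    push Not at hcon
    have h1 : M.card ≤ ∑ a ∈ Icc 1 n, (M.filter (fun m : ℕ => c * (X.card : ℝ) ≤ ‖S X ((a : ℝ) / (m : ℝ))‖)).card :=
      (card_le_card hcover).trans card_biUnion_le
    have h2 : n * ∑ a ∈ Icc 1 n, (M.filter (fun m : ℕ => c * (X.card : ℝ) ≤ ‖S X ((a : ℝ) / (m : ℝ))‖)).card <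
        ∑ _a ∈ Icc 1 n, M.card := by
      rw [Finset.mul_sum]
      exact Finset.sum_lt_sum_of_nonempty ⟨1, mem_Icc.2 ⟨le_rfl, hn⟩⟩ hcon
    rw [Finset.sum_const, Nat.card_Icc, Nat.add_sub_cancel, smul_eq_mul] at h2
    exact absurd (Nat.mul_le_mul_left n h1) (not_le.2 h2)
  obtain ⟨a, ha, haM⟩ := hpig
  rw [mem_Icc] at ha
  set M0 := M.filter (fun m : ℕ => c * (X.card : ℝ) ≤ ‖S X ((a : ℝ) / (m : ℝ))‖) with hM0
  obtain ⟨ks, hks1, hks2, M', hM', hM'c, hb⟩ := hiter (n * D) Q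
    (Nat.one_le_iff_ne_zero.2 (by positivity)) (hC1E.trans hQE) M0 X (fun m => (a : ℝ) / (m : ℝ))
    (fun m hm => hM m (mem_filter.1 hm).1)
    (hMc.trans (by
      calc M.card * D ≤ n * M0.card * D := Nat.mul_le_mul_right _ haM
        _ = M0.card * (n * D) := by ring))
    (fun m hm => (mem_filter.1 hm).2)
  have hks3 : ∀ k ∈ ks, 1 ≤ k ∧ k ≤ E := fun k hk => ⟨(hks2 k hk).1, (hks2 k hk).2.trans hC1E⟩
  have hsum : ks.sum ≤ 2 * Q := by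
    have h1 := sum_le_of_le ks E fun k hk => (hks3 k hk).2
    rw [hks1] at h1
    have h2 : J * E ≤ (J + 1) * E := Nat.mul_le_mul_right _ (by omega)
    omega
  obtain ⟨y', hy'⟩ := hconc E Q a y ks M' X hE1 hQ2 ha.1 (ha.2.trans hnE) hks1 hks3 hsum
    (fun m hm => hM m (mem_filter.1 (hM' hm)).1) (hM'c.trans (Nat.mul_le_mul_left _ hC1E)) hX
    (fun m hm => by
      have h1 := hb m hm
      have h2 : dl (fun m => (a : ℝ) / (m : ℝ)) ks m = (a : ℝ) * dl (T 0) ks m := by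
        rw [← dl_mul]
        congr 1
        funext m
        rw [T_zero]
        ring
      rw [h2] at h1
      refine le_trans ?_ h1
      exact mul_le_mul_of_nonneg_right (min_le_left _ _) (Nat.cast_nonneg _))
  refine ⟨y', hy'.trans (Nat.mul_le_mul_right _ ?_)⟩
  calc C2 * E ^ (J + 2) = 1 * C2 * E ^ (J + 2) := by ring
    _ ≤ (J + 1) * C2 * E ^ (J + 2) := by gcongr; omega

theorem arcs0 (κ : ℝ) (hκ : 0 < κ) (hκ1 : κ ≤ 1) (K : ℕ) :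
    ∃ C e : ℕ, 1 ≤ C ∧ ∀ D Q : ℕ, 1 ≤ D → C * D ^ e ≤ Q → ∀ (M X : Finset ℕ) (y : ℕ),
      (∀ m ∈ M, Q < m ∧ m ≤ 2 * Q) → Q ≤ M.card * D → (∀ m ∈ M, Miss κ m X) →
      (∀ x ∈ X, y ≤ x ∧ x < y + Q ^ (K + 1)) → X.card ≤ C * D ^ e * Q := by
  induction K with
  | zero =>
    refine ⟨1, 0, le_rfl, fun D Q _ _ M X y _ _ _ hX => ?_⟩
    have h1 : X ⊆ Ico y (y + Q) := fun x hx => mem_Ico.2 (by simpa using hX x hx)
    have h2 := card_le_card h1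
    rw [Nat.card_Ico, Nat.add_sub_cancel_left] at h2
    simpa using h2
  | succ K ih =>
    obtain ⟨C1, e1, hC1, h1⟩ := stage κ hκ hκ1 K
    obtain ⟨C2, e2, hC2, h2⟩ := ih
    refine ⟨C1 * C2, e1 + e2, Nat.one_le_iff_ne_zero.2 (by positivity), ?_⟩
    intro D Q hD hQ M X y hM hMc hmiss hX
    have hD1 : 1 ≤ D ^ e1 := Nat.one_le_iff_ne_zero.2 (by positivity)
    have hD2 : 1 ≤ D ^ e2 := Nat.one_le_iff_ne_zero.2 (by positivity)
    have hQ1 : C1 * D ^ e1 ≤ Q := by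
      refine le_trans ?_ hQ
      rw [pow_add]
      calc C1 * D ^ e1 = C1 * 1 * (D ^ e1 * 1) := by ring
        _ ≤ C1 * C2 * (D ^ e1 * D ^ e2) := by gcongr
    have hQ2 : C2 * D ^ e2 ≤ Q := by
      refine le_trans ?_ hQ
      rw [pow_add]
      calc C2 * D ^ e2 = 1 * C2 * (1 * D ^ e2) := by ring
        _ ≤ C1 * C2 * (D ^ e1 * D ^ e2) := by gcongr
    obtain ⟨y', hy'⟩ := h1 D Q hD hQ1 M X y hM hMc hmiss hX
    have h3 := h2 D Q hD hQ2 M (X.filter (fun x => y' ≤ x ∧ x < y' + Q ^ (K + 1))) y' hM hMc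
      (fun m hm => (hmiss m hm).mono (filter_subset _ _)) (fun x hx => (mem_filter.1 hx).2)
    calc X.card ≤ C1 * D ^ e1 * (X.filter (fun x => y' ≤ x ∧ x < y' + Q ^ (K + 1))).card := hy'
      _ ≤ C1 * D ^ e1 * (C2 * D ^ e2 * Q) := Nat.mul_le_mul_left _ h3
      _ = C1 * C2 * D ^ (e1 + e2) * Q := by rw [pow_add]; ring

theorem arcs (κ : ℝ) (hκ : 0 < κ) (hκ1 : κ ≤ 1) (K : ℕ) :
    ∃ C e : ℕ, 1 ≤ C ∧ ∀ D Q : ℕ, 1 ≤ D → 1 ≤ Q → ∀ (M X : Finset ℕ),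
      (∀ m ∈ M, Q < m ∧ m ≤ 2 * Q) → Q ≤ M.card * D → (∀ m ∈ M, Miss κ m X) →
      (∀ x ∈ X, x < Q ^ (K + 1)) → X.card ≤ C * D ^ e * Q := by
  obtain ⟨C, e, hC, h⟩ := arcs0 κ hκ hκ1 K
  refine ⟨C ^ (K + 1), e * (K + 1), Nat.one_le_iff_ne_zero.2 (by positivity), ?_⟩
  intro D Q hD hQ0 M X hM hMc hmiss hX
  have hpow : C ^ (K + 1) * D ^ (e * (K + 1)) = (C * D ^ e) ^ (K + 1) := by
    rw [mul_pow, pow_mul]
  rw [hpow]
  have hCD : 1 ≤ C * D ^ e := Nat.one_le_iff_ne_zero.2 (by positivity)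
  rcases le_or_gt (C * D ^ e) Q with hQ | hQ
  · have h1 := h D Q hD hQ M X 0 hM hMc hmiss (fun x hx => ⟨Nat.zero_le _, by simpa using hX x hx⟩)
    refine h1.trans (Nat.mul_le_mul_right _ ?_)
    calc C * D ^ e = (C * D ^ e) ^ 1 := (pow_one _).symm
      _ ≤ (C * D ^ e) ^ (K + 1) := Nat.pow_le_pow_right hCD (by omega)
  · have h1 : X ⊆ range (Q ^ (K + 1)) := fun x hx => mem_range.2 (hX x hx)
    have h2 := card_le_card h1
    rw [card_range] at h2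
    refine h2.trans ?_
    calc Q ^ (K + 1) = Q ^ K * Q := pow_succ _ _
      _ ≤ (C * D ^ e) ^ K * Q := Nat.mul_le_mul_right _ (Nat.pow_le_pow_left hQ.le K)
      _ ≤ (C * D ^ e) ^ (K + 1) * Q := Nat.mul_le_mul_right _ (Nat.pow_le_pow_right hCD (by omega))

end Pool.Agent.H95.AS
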