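import Pool.Agent.H95.AS.Defs

/-!
# [H95 AS Pair] Two of many biased frequencies have a biased difference
-/

set_option autoImplicit false

namespace Pool.Agent.H95.AS

open Finset Pool.Agent.H24.AB

theorem S_conj (X : Finset ℕ) (θ : ℝ) : (starRingEnd ℂ) (S X θ) = S X (-θ) := by
  unfold S
  rw [map_sum]
  refine Finset.sum_congr rfl fun x _ => ?_
  rw [ee_conj]
  congr 1
  ring

theorem S_neg_norm (X : Finset ℕ) (θ : ℝ) : ‖S X (-θ)‖ = ‖S X θ‖ := by
  rw [← S_conj, Complex.norm_conj]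

/-- a unimodular factor turning `z` into its norm -/
theorem exists_unimod (z : ℂ) : ∃ w : ℂ, ‖w‖ = 1 ∧ w * z = (‖z‖ : ℂ) := by
  by_cases hz : z = 0
  · exact ⟨1, by simp, by simp [hz]⟩
  · have hn : ‖z‖ ≠ 0 := norm_ne_zero_iff.2 hz
    have hn' : (‖z‖ : ℂ) ≠ 0 := by exact_mod_cast hn
    refine ⟨(starRingEnd ℂ) z / (‖z‖ : ℂ), ?_, ?_⟩
    · rw [norm_div, Complex.norm_conj, Complex.norm_real, norm_norm, div_self hn]
    · rw [div_mul_eq_mul_div, mul_comm, Complex.mul_conj, Complex.normSq_eq_norm_sq]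
      push_cast
      field_simp

/-- expansion of the square -/
theorem pair_expand (X : Finset ℕ) (s : Finset ℕ) (g : ℕ → ℝ) (w : ℕ → ℂ) :
    ((∑ x ∈ X, ‖∑ i ∈ s, w i * ee ((x : ℝ) * g i)‖ ^ 2 : ℝ) : ℂ) =
      ∑ i ∈ s, ∑ j ∈ s, w i * (starRingEnd ℂ) (w j) * S X (g i - g j) := by
  have h1 : ∀ z : ℂ, ((‖z‖ ^ 2 : ℝ) : ℂ) = z * (starRingEnd ℂ) z := by
    intro z
    rw [Complex.mul_conj, Complex.normSq_eq_norm_sq]
  rw [Complex.ofReal_sum]
  have h2 : ∀ x ∈ X, ((‖∑ i ∈ s, w i * ee ((x : ℝ) * g i)‖ ^ 2 : ℝ) : ℂ) =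
      ∑ i ∈ s, ∑ j ∈ s, w i * (starRingEnd ℂ) (w j) * ee ((x : ℝ) * (g i - g j)) := by
    intro x _
    rw [h1, map_sum, Finset.sum_mul_sum]
    refine Finset.sum_congr rfl fun i _ => Finset.sum_congr rfl fun j _ => ?_
    rw [map_mul, ee_conj]
    have h3 : (x : ℝ) * (g i - g j) = x * g i + -(x * g j) := by ring
    rw [h3, ee_add]
    ring
  rw [Finset.sum_congr rfl h2, Finset.sum_comm]
  refine Finset.sum_congr rfl fun i _ => ?_
  rw [Finset.sum_comm]
  refine Finset.sum_congr rfl fun j _ => ?_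
  unfold S
  rw [Finset.mul_sum]

theorem S_zero (X : Finset ℕ) : S X 0 = X.card := by
  unfold S
  simp [ee_zero]

theorem pair_bias (X : Finset ℕ) (c : ℝ) (hc : 0 < c) (s : Finset ℕ) (g : ℕ → ℝ)
    (hs : 2 / c ^ 2 + 2 ≤ (s.card : ℝ)) (h : ∀ i ∈ s, c * X.card ≤ ‖S X (g i)‖) :
    ∃ i ∈ s, ∃ j ∈ s, i < j ∧ c ^ 2 / 2 * X.card ≤ ‖S X (g i - g j)‖ := by
  have hc2 : 0 < 2 / c ^ 2 := by positivity
  have hs2 : 2 ≤ s.card := by
    have : (2 : ℝ) ≤ s.card := by linarith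
    exact_mod_cast this
  by_contra hcon
  push Not at hcon
  -- for all pairs of different elements
  have hne : ∀ i ∈ s, ∀ j ∈ s, i ≠ j → ‖S X (g i - g j)‖ < c ^ 2 / 2 * X.card := by
    intro i hi j hj hij
    rcases lt_or_gt_of_ne hij with hlt | hlt
    · exact hcon i hi j hj hlt
    · have h1 := hcon j hj i hi hlt
      rw [← S_neg_norm, neg_sub] at h1
      exact h1
  rcases Nat.eq_zero_or_pos X.card with hX | hX
  · obtain ⟨a, ha, b, hb, hab⟩ := Finset.one_lt_card.1 (by omega : 1 < s.card)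
    have h1 := hne a ha b hb hab
    rw [hX] at h1
    simp only [Nat.cast_zero, mul_zero] at h1
    exact absurd h1 (not_lt.2 (norm_nonneg _))
  · have hX0 : (0 : ℝ) < X.card := by exact_mod_cast hX
    have hs0 : (0 : ℝ) < s.card := by
      have : (0 : ℕ) < s.card := by omega
      exact_mod_cast this
    choose! w hw1 hw2 using fun i => exists_unimod (S X (g i))
    set f : ℕ → ℂ := fun x => ∑ i ∈ s, w i * ee ((x : ℝ) * g i) with hf
    -- lower bound
    have hlow : (c * X.card * s.card : ℝ) ≤ ∑ x ∈ X, ‖f x‖ := by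
      have e1 : ((∑ i ∈ s, ‖S X (g i)‖ : ℝ) : ℂ) = ∑ x ∈ X, f x := by
        rw [Complex.ofReal_sum, hf, Finset.sum_comm]
        refine Finset.sum_congr rfl fun i _ => ?_
        rw [← hw2 i]
        unfold S
        rw [Finset.mul_sum]
      have e2 : (∑ i ∈ s, ‖S X (g i)‖ : ℝ) ≤ ∑ x ∈ X, ‖f x‖ := by
        have e3 : ‖((∑ i ∈ s, ‖S X (g i)‖ : ℝ) : ℂ)‖ ≤ ∑ x ∈ X, ‖f x‖ := by
          rw [e1]
          exact norm_sum_le _ _
        rw [Complex.norm_real] at e3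
        exact (le_abs_self _).trans e3
      have e4 : (c * X.card * s.card : ℝ) ≤ ∑ i ∈ s, ‖S X (g i)‖ := by
        calc (c * X.card * s.card : ℝ) = ∑ _i ∈ s, c * (X.card : ℝ) := by
              rw [Finset.sum_const, nsmul_eq_mul]
              ring
          _ ≤ _ := Finset.sum_le_sum h
      exact e4.trans e2
    -- Cauchy
    have hcs : (∑ x ∈ X, ‖f x‖) ^ 2 ≤ X.card * ∑ x ∈ X, ‖f x‖ ^ 2 := sq_sum_le_card_mul_sum_sq
    -- the second moment
    have hup : ∑ x ∈ X, ‖f x‖ ^ 2 ≤ s.card * X.card + (s.card : ℝ) ^ 2 * (c ^ 2 / 2 * X.card) := by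
      have e1 := pair_expand X s g w
      have e2 : (∑ x ∈ X, ‖f x‖ ^ 2 : ℝ) ≤ ∑ i ∈ s, ∑ j ∈ s, ‖S X (g i - g j)‖ := by
        have e3 : ‖((∑ x ∈ X, ‖f x‖ ^ 2 : ℝ) : ℂ)‖ ≤ ∑ i ∈ s, ∑ j ∈ s, ‖S X (g i - g j)‖ := by
          rw [e1]
          refine (norm_sum_le _ _).trans (Finset.sum_le_sum fun i _ => ?_)
          refine (norm_sum_le _ _).trans (Finset.sum_le_sum fun j _ => ?_)
          rw [norm_mul, norm_mul, Complex.norm_conj, hw1, hw1, one_mul, one_mul]
        rw [Complex.norm_real] at e3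
        exact (le_abs_self _).trans e3
      refine e2.trans ?_
      have e4 : ∀ i ∈ s, ∑ j ∈ s, ‖S X (g i - g j)‖ ≤ X.card + s.card * (c ^ 2 / 2 * X.card) := by
        intro i hi
        have e5 : ∀ j ∈ s, ‖S X (g i - g j)‖ ≤ (if j = i then (X.card : ℝ) else 0) + c ^ 2 / 2 * X.card := by
          intro j hj
          by_cases hji : j = i
          · rw [if_pos hji, hji, sub_self, S_zero]
            have : ‖((X.card : ℕ) : ℂ)‖ = (X.card : ℝ) := by simp
            rw [this]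
            have : 0 ≤ c ^ 2 / 2 * (X.card : ℝ) := by positivity
            linarith
          · rw [if_neg hji, zero_add]
            exact (hne i hi j hj (Ne.symm hji)).le
        refine (Finset.sum_le_sum e5).trans ?_
        rw [Finset.sum_add_distrib, Finset.sum_ite_eq' s i, if_pos hi, Finset.sum_const, nsmul_eq_mul]
      refine (Finset.sum_le_sum e4).trans ?_
      rw [Finset.sum_const, nsmul_eq_mul]
      nlinarith
    have h1 : (c * X.card * s.card) ^ 2 ≤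
        X.card * (s.card * X.card + (s.card : ℝ) ^ 2 * (c ^ 2 / 2 * X.card)) := by
      calc (c * X.card * s.card) ^ 2 ≤ (∑ x ∈ X, ‖f x‖) ^ 2 := by
            apply pow_le_pow_left₀ (by positivity) hlow
        _ ≤ X.card * ∑ x ∈ X, ‖f x‖ ^ 2 := hcs
        _ ≤ _ := mul_le_mul_of_nonneg_left hup hX0.le
    have h2 : c ^ 2 * s.card ≤ 1 + s.card * (c ^ 2 / 2) := by
      have h3 : (0 : ℝ) < (X.card : ℝ) ^ 2 * s.card := by positivity
      have h4 : (X.card : ℝ) ^ 2 * s.card * (c ^ 2 * s.card) ≤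
          (X.card : ℝ) ^ 2 * s.card * (1 + s.card * (c ^ 2 / 2)) := by nlinarith [h1]
      exact le_of_mul_le_mul_left h4 h3
    have h5 : c ^ 2 * s.card ≤ 2 := by nlinarith
    have h6 : c ^ 2 * (2 / c ^ 2 + 2) ≤ c ^ 2 * s.card :=
      mul_le_mul_of_nonneg_left hs (by positivity)
    have h7 : c ^ 2 * (2 / c ^ 2 + 2) = 2 + 2 * c ^ 2 := by
      field_simp
    have h8 : 0 < c ^ 2 := by positivity
    linarith

end Pool.Agent.H95.AS
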