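import Pool.Agent.H95.AS.Pair

/-!
# [H95 AS Step] One differencing step

Proof. Let `T > 2 / c^2` be a natural number, `L = 8 T D`, `C = 128 T^2 + 8 T + 8` (enlarge `C` if convenient). Split the elements of `M`, all in `(Q, 2Q]`, by the
value of `m / L`: at most `Q/L + 2` values. The values taken by fewer than `T` elements of `M` account for at most
`T (Q/L + 2) ≤ Q/(2D)` elements (`Q ≥ C D`), so at least `Q/(2D)` elements of `M` lie in classes with at least `T` elements; a class has at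
most `L` elements, so at least `Q/(2DL)` classes are rich. In each rich class `pair_bias` gives two different elements `m < m + k`, `k < L`, with
`c^2/2 |X| ≤ ‖S X (g m - g (m+k))‖` (`S_neg_norm` for the order). Pigeonhole over `k ∈ [1, L)`: some `k` occurs for at least
`Q/(2DL^2) = Q/(128 T^2 D^3)` classes, and the `m` of different classes are different. `M' = {m ∈ M | bias at g m - g (m+k)}`.
-/

set_option autoImplicit false

namespace Pool.Agent.H95.AS

open Finset Pool.Agent.H24.AB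

/-- many rich classes -/
private theorem step_rich (T D Q : ℕ) (hT : 1 ≤ T) (hD : 1 ≤ D) (hQ : 128 * T ^ 2 * D ≤ Q)
    (M : Finset ℕ) (hM : ∀ m ∈ M, Q < m ∧ m ≤ 2 * Q) (hMc : Q ≤ M.card * D) :
    Q ≤ 16 * T * D ^ 2 * ((M.image fun m => m / (8 * T * D)).filter
      fun v => T ≤ (M.filter fun m => m / (8 * T * D) = v).card).card := by
  classical
  obtain ⟨L, hL⟩ : ∃ L, L = 8 * T * D := ⟨_, rfl⟩
  rw [← hL]
  have hL0 : 0 < L := by rw [hL]; positivity
  set V := M.image fun m => m / L with hV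
  set R := V.filter fun v => T ≤ (M.filter fun m => m / L = v).card with hR
  have hFL : ∀ v, (M.filter fun m => m / L = v).card ≤ L := by
    intro v
    have h1 : (M.filter fun m => m / L = v) ⊆ Finset.Ico (v * L) (v * L + L) := by
      intro m hm
      rw [Finset.mem_filter] at hm
      rw [Finset.mem_Ico]
      have h2 := Nat.div_mul_le_self m L
      have h3 := Nat.lt_div_mul_add (a := m) hL0
      rw [hm.2] at h2 h3
      exact ⟨h2, h3⟩
    refine (Finset.card_le_card h1).trans ?_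
    rw [Nat.card_Ico]
    omega
  have hVc : V.card ≤ Q / L + 2 := by
    have h1 : V ⊆ Finset.Icc (Q / L) (2 * Q / L) := by
      intro v hv
      rw [hV, Finset.mem_image] at hv
      obtain ⟨m, hm, rfl⟩ := hv
      obtain ⟨a, b⟩ := hM m hm
      rw [Finset.mem_Icc]
      exact ⟨Nat.div_le_div_right a.le, Nat.div_le_div_right b⟩
    refine (Finset.card_le_card h1).trans ?_
    rw [Nat.card_Icc]
    have h2 : 2 * Q / L < 2 * (Q / L) + 2 := by
      rw [Nat.div_lt_iff_lt_mul hL0]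
      have h3 := Nat.lt_div_mul_add (a := Q) hL0
      have h4 : (2 * (Q / L) + 2) * L = 2 * (Q / L * L + L) := by ring
      rw [h4]
      omega
    omega
  have hsum : M.card = ∑ v ∈ V, (M.filter fun m => m / L = v).card := by
    rw [hV]
    exact Finset.card_eq_sum_card_image _ _
  have h1 : M.card ≤ T * V.card + L * R.card := by
    rw [hsum]
    calc ∑ v ∈ V, (M.filter fun m => m / L = v).card
        ≤ ∑ v ∈ V, (T + if T ≤ (M.filter fun m => m / L = v).card then L else 0) := by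
          refine Finset.sum_le_sum fun v _ => ?_
          by_cases h : T ≤ (M.filter fun m => m / L = v).card
          · rw [if_pos h]
            exact (hFL v).trans (Nat.le_add_left _ _)
          · rw [if_neg h]
            omega
      _ = T * V.card + L * R.card := by
          rw [Finset.sum_add_distrib, Finset.sum_const, smul_eq_mul, ← Finset.sum_filter,
            Finset.sum_const, smul_eq_mul, ← hR]
          ring
  have h2 : L * (Q / L) ≤ Q := Nat.mul_div_le Q L
  have h3 : M.card ≤ T * (Q / L + 2) + L * R.card :=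
    h1.trans (Nat.add_le_add_right (Nat.mul_le_mul_left T hVc) _)
  have h4 : M.card * D ≤ (T * (Q / L + 2) + L * R.card) * D := Nat.mul_le_mul_right D h3
  have h5 : 16 * (T * D) ≤ Q := by
    have : 1 ≤ T * 1 := by omega
    have h6 : T * 1 ≤ T * T := Nat.mul_le_mul_left T hT
    nlinarith
  have h7 : 8 * (T * (Q / L) * D) ≤ Q := by
    have : 8 * (T * (Q / L) * D) = L * (Q / L) := by rw [hL]; ring
    rw [this]
    exact h2
  have h8 : 8 * ((T * (Q / L + 2) + L * R.card) * D) =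
      8 * (T * (Q / L) * D) + 16 * (T * D) + 64 * (T * D ^ 2 * R.card) := by
    rw [hL]
    ring
  have h9 : 16 * T * D ^ 2 * R.card = 16 * (T * D ^ 2 * R.card) := by ring
  rw [h9]
  omega

/-- the step with an explicit constant -/
theorem step_explicit (c : ℝ) (hc : 0 < c) (T : ℕ) (hT : 2 / c ^ 2 + 2 ≤ T) (D Q : ℕ) (hD : 1 ≤ D)
    (hCQ : 128 * T ^ 2 * D ≤ Q) (M X : Finset ℕ) (g : ℕ → ℝ)
    (hM : ∀ m ∈ M, Q < m ∧ m ≤ 2 * Q) (hMc : Q ≤ M.card * D)
    (hbias : ∀ m ∈ M, c * X.card ≤ ‖S X (g m)‖) :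
    ∃ k : ℕ, 1 ≤ k ∧ k ≤ 128 * T ^ 2 * D ∧ ∃ M' ⊆ M, Q ≤ M'.card * (128 * T ^ 2 * D ^ 3) ∧
      ∀ m ∈ M', c ^ 2 / 2 * X.card ≤ ‖S X (g m - g (m + k))‖ := by
  classical
  have hT1 : 1 ≤ T := by
    have h1 : (0 : ℝ) < 2 / c ^ 2 := by positivity
    have h2 : (1 : ℝ) ≤ T := by linarith
    exact_mod_cast h2
  have hrich := step_rich T D Q hT1 hD hCQ M hM hMc
  obtain ⟨L, hL⟩ : ∃ L, L = 8 * T * D := ⟨_, rfl⟩
  rw [← hL] at hrich
  have hL0 : 0 < L := by rw [hL]; positivity
  set R := (M.image fun m => m / L).filter fun v => T ≤ (M.filter fun m => m / L = v).card with hR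
  have hQ0 : 0 < Q := by
    have : 0 < 128 * T ^ 2 * D := by positivity
    omega
  -- a pair in every rich class
  have hpair : ∀ v ∈ R, ∃ i k : ℕ, i ∈ M ∧ i / L = v ∧ 1 ≤ k ∧ k ≤ L ∧
      c ^ 2 / 2 * X.card ≤ ‖S X (g i - g (i + k))‖ := by
    intro v hv
    rw [hR, Finset.mem_filter] at hv
    have h1 : 2 / c ^ 2 + 2 ≤ ((M.filter fun m => m / L = v).card : ℝ) := by
      refine hT.trans ?_
      exact_mod_cast hv.2
    obtain ⟨i, hi, j, hj, hij, hb⟩ := pair_bias X c hc (M.filter fun m => m / L = v) g h1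
      (fun m hm => hbias m (Finset.mem_filter.1 hm).1)
    rw [Finset.mem_filter] at hi hj
    refine ⟨i, j - i, hi.1, hi.2, by omega, ?_, ?_⟩
    · have h2 := Nat.div_mul_le_self i L
      have h3 := Nat.lt_div_mul_add (a := j) hL0
      rw [hi.2] at h2
      rw [hj.2] at h3
      omega
    · rw [Nat.add_sub_of_le hij.le]
      exact hb
  choose! i k hi1 hi2 hk1 hk2 hb using hpair
  -- pigeonhole
  have hRne : R.Nonempty := by
    rw [Finset.nonempty_iff_ne_empty]
    intro h0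
    rw [h0, Finset.card_empty] at hrich
    omega
  obtain ⟨k₀, hk₀, hcard⟩ : ∃ k₀ ∈ Finset.Icc 1 L,
      R.card ≤ L * (R.filter fun v => k v = k₀).card := by
    by_contra hcon
    push Not at hcon
    have h1 : R.card = ∑ k₀ ∈ Finset.Icc 1 L, (R.filter fun v => k v = k₀).card :=
      Finset.card_eq_sum_card_fiberwise fun v hv => by
        rw [Finset.coe_Icc, Set.mem_Icc]
        exact ⟨hk1 v hv, hk2 v hv⟩
    have h2 : ∑ k₀ ∈ Finset.Icc 1 L, L * (R.filter fun v => k v = k₀).card <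
        ∑ k₀ ∈ Finset.Icc 1 L, R.card :=
      Finset.sum_lt_sum_of_nonempty ⟨1, Finset.mem_Icc.2 ⟨le_rfl, hL0⟩⟩ hcon
    rw [← Finset.mul_sum, ← h1, Finset.sum_const, Nat.card_Icc, smul_eq_mul] at h2
    simp at h2
  rw [Finset.mem_Icc] at hk₀
  refine ⟨k₀, hk₀.1, hk₀.2.trans ?_, M.filter fun m =>
    c ^ 2 / 2 * X.card ≤ ‖S X (g m - g (m + k₀))‖, Finset.filter_subset _ _, ?_, ?_⟩
  · rw [hL]
    refine Nat.mul_le_mul_right D ?_
    nlinarith
  · have h1 : (R.filter fun v => k v = k₀).card ≤ (M.filter fun m =>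
        c ^ 2 / 2 * X.card ≤ ‖S X (g m - g (m + k₀))‖).card := by
      refine Finset.card_le_card_of_injOn i ?_ ?_
      · intro v hv
        rw [Finset.mem_coe, Finset.mem_filter] at hv
        rw [Finset.mem_coe, Finset.mem_filter]
        refine ⟨hi1 v hv.1, ?_⟩
        have := hb v hv.1
        rwa [hv.2] at this
      · intro v hv w hw hvw
        rw [Finset.mem_coe, Finset.mem_filter] at hv hw
        rw [← hi2 v hv.1, ← hi2 w hw.1, hvw]
    refine hrich.trans ?_
    have h2 : R.card ≤ L * (M.filter fun m =>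
        c ^ 2 / 2 * X.card ≤ ‖S X (g m - g (m + k₀))‖).card :=
      hcard.trans (Nat.mul_le_mul_left L h1)
    calc 16 * T * D ^ 2 * R.card ≤ 16 * T * D ^ 2 * (L * (M.filter fun m =>
        c ^ 2 / 2 * X.card ≤ ‖S X (g m - g (m + k₀))‖).card) := Nat.mul_le_mul_left _ h2
      _ = _ := by rw [hL]; ring
  · intro m hm
    exact (Finset.mem_filter.1 hm).2

theorem step (c : ℝ) (hc : 0 < c) :
    ∃ C : ℕ, 1 ≤ C ∧ ∀ D Q : ℕ, 1 ≤ D → C * D ≤ Q → ∀ (M X : Finset ℕ) (g : ℕ → ℝ),
      (∀ m ∈ M, Q < m ∧ m ≤ 2 * Q) → Q ≤ M.card * D →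
      (∀ m ∈ M, c * X.card ≤ ‖S X (g m)‖) →
      ∃ k : ℕ, 1 ≤ k ∧ k ≤ C * D ∧ ∃ M' ⊆ M, Q ≤ M'.card * (C * D ^ 3) ∧
        ∀ m ∈ M', c ^ 2 / 2 * X.card ≤ ‖S X (g m - g (m + k))‖ := by
  obtain ⟨T, hT⟩ : ∃ T : ℕ, 2 / c ^ 2 + 2 ≤ T := exists_nat_ge _
  have hT1 : 1 ≤ T := by
    have h1 : (0 : ℝ) < 2 / c ^ 2 := by positivity
    have h2 : (1 : ℝ) ≤ T := by linarith
    exact_mod_cast h2
  have hC1 : 1 ≤ 128 * T ^ 2 := by
    have : 0 < 128 * T ^ 2 := by positivity
    omega
  exact ⟨128 * T ^ 2, hC1, fun D Q hD hCQ M X g hM hMc hbias =>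
    step_explicit c hc T hT D Q hD hCQ M X g hM hMc hbias⟩

end Pool.Agent.H95.AS
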